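import Pool.Agent.H18.CB.ZT

set_option autoImplicit false

/-!
# Polynomials of the size of small circuits

PROOF of `log_bound'` (for `k ≥ 1`; for `k = 0` use `k = 1`, or `1 ≤ n`): as `Frm.log_bound` in
`Pool.Agent.H18.CB.Small` (copy the private lemmas).  Let `l = log n ≥ 1`, `m = α l`, `a = F.a n = lam m`,
`c1 = 6 D (a + 1) + 10`.  `F.L n ≤ l * c1`, and `k * c1 ≤ m` if `a ≥ k (6 D + 12)` (`a (a + 1) ≤ 2 ^ 2 ^ a ≤ m + 2`),
`l ≤ F.L n`, so `k * c1 ≤ α (F.L n)`.  If `n = 2 ^ l < s ^ k` then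
`2 ^ F.L n ≤ (2 ^ l) ^ c1 < (s ^ k) ^ c1 = s ^ (k * c1) ≤ s ^ α (F.L n)`, against the hypothesis.
PROOF of `L_small`: `α l ≤ Q l` for a polynomial `Q` (`hα.polyTime`: `Eval.size_le`, `len_le_size`, or `FP.fn` and
`FP.size_bound` as in `exists_zB`), `a n = lam (α l) ≤ α l`, so `F.L n` is at most a polynomial `Q'` in `l = log n`, and
`(Q' l + 2) ^ d ≤ 2 ^ l = n` for `l ≥ l0` (a polynomial is eventually below `2 ^ l`); `l ≥ l0` follows from
`K = lam (lam (α l0)) + 1 ≤ lam (F.a n)` by monotonicity (`lam` is monotone, `Nat.log_mono_right`).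
PROOF of `exists_big`: `P.eval m ≤ (m + 2) ^ d` (`exists_pow_bound'` in `Pool.Agent.H40.EL.Arith2`).
If `s ≤ F.L n + 2` then `(s + F.L n + 2) ^ d ≤ (2 (F.L n + 2)) ^ d ≤ ((F.L n + 2) ^ 2) ^ d ≤ n` by `L_small`; otherwise
`(s + F.L n + 2) ^ d ≤ (2 s) ^ d ≤ (s ^ 2) ^ d ≤ n` by `log_bound'`.
-/

namespace Pool.Agent.H79.CP

open Pool.Agent.H88.RO Pool.Agent.H88.RO.Tr Pool.Agent.H65.TS Pool.Agent.H65.NU Pool.Agent.H69.NL
open Pool.Agent.H18.CB
open Pool.Agent.H93.BB (Orc zero)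
open Pool.Agent.H40.EL (lam lam_bounds exists_pow_bound')

private theorem two_mul_le_pow (A : ℕ) : 2 * A ≤ 2 ^ A := by
  induction A with
  | zero => simp
  | succ A ih =>
    rcases Nat.eq_zero_or_pos A with h | h
    · subst h
      norm_num
    · have h1 : 2 ^ (A + 1) = 2 * 2 ^ A := pow_succ' 2 A
      omega

private theorem mul_le_pow_pow (A : ℕ) : A * (A + 1) ≤ 2 ^ 2 ^ A := by
  have h1 : A + 1 ≤ 2 ^ A := Nat.lt_two_pow_self
  calc A * (A + 1) ≤ 2 ^ A * 2 ^ A := Nat.mul_le_mul (by omega) h1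
    _ = 2 ^ (A + A) := by rw [pow_add]
    _ ≤ 2 ^ 2 ^ A := by
      refine Nat.pow_le_pow_right (by norm_num) ?_
      have := two_mul_le_pow A
      omega

private theorem lam_le (A : ℕ) : lam A ≤ A := by
  have h1 := (lam_bounds A).1
  have h2 : lam A + 1 ≤ 2 ^ lam A := Nat.lt_two_pow_self
  have h3 : 2 ^ lam A + 1 ≤ 2 ^ 2 ^ lam A := Nat.lt_two_pow_self
  omega

private theorem lam_mono {A B : ℕ} (h : A ≤ B) : lam A ≤ lam B := by
  unfold lam
  exact Nat.log_mono_right (Nat.log_mono_right (by omega))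

private theorem L_eq (F : H18.CB.Frm) (n : ℕ) :
    F.L n = 2 * (F.D * ((Nat.log 2 n + 2) * (F.a n + 1))) + 10 := by
  unfold Frm.L nL nA
  rw [zS_length]

/-- powers are eventually small -/
private theorem pow_small (e : ℕ) : ∃ l0 : ℕ, ∀ l, l0 ≤ l → (l + 2) ^ e ≤ 2 ^ l := by
  have h1 := isLittleO_pow_const_const_pow_of_one_lt (R := ℝ) e (r := 2) (by norm_num)
  have h2 := h1.def (c := 1 / 4) (by norm_num)
  obtain ⟨l0, hl0⟩ := Filter.eventually_atTop.1 h2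
  refine ⟨l0, fun l hl => ?_⟩
  have h3 := hl0 (l + 2) (by omega)
  rw [Real.norm_of_nonneg (by positivity), Real.norm_of_nonneg (by positivity)] at h3
  have h4 : ((l + 2 : ℕ) : ℝ) ^ e ≤ (2 : ℝ) ^ l := by
    refine h3.trans (le_of_eq ?_)
    rw [pow_add]
    ring
  exact_mod_cast h4

private theorem sq_aux (s L : ℕ) (h : L + 2 < s) : s + L + 2 ≤ s ^ 2 := by
  nlinarith

private theorem sq_aux' (s L : ℕ) (h : s ≤ L + 2) : s + L + 2 ≤ (L + 2) ^ 2 := by
  nlinarith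

private theorem poly_bound {α : ℕ → ℕ} (hα : Slow zero α) :
    ∃ Q : Polynomial ℕ, ∀ l, α l ≤ Q.eval l := by
  obtain ⟨s, hs⟩ := (FP.fn hα.polyTime FP.id').size_bound
  refine ⟨s.comp (2 * Polynomial.X + 1), fun l => ?_⟩
  have h1 := hs (num l)
  have h2 := len_le_size (enc (ones (α (dec (num l)).length)))
  rw [len_enc, ones_length, length_dec, len_num] at h2
  simp only [length_dec, len_num, size_num] at h1
  simp only [Polynomial.eval_comp, Polynomial.eval_add, Polynomial.eval_mul, Polynomial.eval_X,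
    Polynomial.eval_one, Polynomial.eval_ofNat]
  omega

theorem log_bound' (F : H18.CB.Frm) {α : ℕ → ℕ} (hm : Monotone α)
    (hα : ∀ n, F.a n = lam (α (Nat.log 2 n))) (k : ℕ) :
    ∃ K : ℕ, ∀ n, dP n = true → K ≤ lam (F.a n) → ∀ s : ℕ,
      s ^ α (F.L n) ≤ 2 ^ F.L n → s ^ k ≤ n := by
  rcases Nat.eq_zero_or_pos k with hk0 | hk
  · subst hk0
    refine ⟨0, fun n hn _ s _ => ?_⟩
    have h1 : 2 ^ Nat.log 2 n = n := of_decide_eq_true hn
    rw [pow_zero, ← h1]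
    exact Nat.one_le_two_pow
  refine ⟨k * (6 * F.D + 12) + lam (lam (α 0)) + 1, fun n hn hK s hs => ?_⟩
  have h1 : 2 ^ Nat.log 2 n = n := of_decide_eq_true hn
  have hl : 1 ≤ Nat.log 2 n := by
    by_contra hcon
    have h2 : Nat.log 2 n = 0 := by omega
    have h3 := hα n
    rw [h2] at h3
    rw [h3] at hK
    omega
  have hA1 := lam_le (F.a n)
  have hL := L_eq F n
  have hmA := (lam_bounds (α (Nat.log 2 n))).1
  rw [← hα] at hmA
  have hpp := mul_le_pow_pow (F.a n)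
  have hm1 : k * (6 * F.D * (F.a n + 1) + 10) ≤ α (Nat.log 2 n) := by
    have h4 : (k * (6 * F.D + 12)) * (F.a n + 1) ≤ F.a n * (F.a n + 1) :=
      Nat.mul_le_mul_right _ (by omega)
    have h5 : (k * (6 * F.D + 12)) * (F.a n + 1) =
        k * (6 * F.D * (F.a n + 1) + 10) + 2 * k + 12 * (k * F.a n) := by ring
    omega
  have hL1 : F.L n ≤ Nat.log 2 n * (6 * F.D * (F.a n + 1) + 10) := by
    rw [hL]
    have h4 : Nat.log 2 n + 2 ≤ 3 * Nat.log 2 n := by omega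
    have h5 : F.D * ((Nat.log 2 n + 2) * (F.a n + 1)) ≤ F.D * ((3 * Nat.log 2 n) * (F.a n + 1)) :=
      Nat.mul_le_mul_left _ (Nat.mul_le_mul_right _ h4)
    have h6 : Nat.log 2 n * (6 * F.D * (F.a n + 1) + 10) =
        2 * (F.D * ((3 * Nat.log 2 n) * (F.a n + 1))) + 10 * Nat.log 2 n := by ring
    omega
  have hlogL : Nat.log 2 n ≤ F.L n := by
    rw [hL]
    have hD : 1 ≤ F.D := by
      unfold Frm.D
      omega
    have h4 : 1 * (Nat.log 2 n * 1) ≤ F.D * ((Nat.log 2 n + 2) * (F.a n + 1)) :=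
      Nat.mul_le_mul hD (Nat.mul_le_mul (by omega) (by omega))
    omega
  have hmono := hm hlogL
  by_contra hcon
  have h7 : 2 ^ Nat.log 2 n < s ^ k := by omega
  have hs1 : 1 ≤ s := by
    by_contra hs0
    have hs2 : s = 0 := by omega
    rw [hs2, zero_pow (by omega)] at h7
    omega
  generalize hc : 6 * F.D * (F.a n + 1) + 10 = c1 at hm1 hL1
  have hc0 : c1 ≠ 0 := by omega
  have h8 : (2 ^ Nat.log 2 n) ^ c1 < (s ^ k) ^ c1 := Nat.pow_lt_pow_left h7 hc0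
  have h9 : 2 ^ F.L n ≤ (2 ^ Nat.log 2 n) ^ c1 := by
    rw [← pow_mul]
    exact Nat.pow_le_pow_right (by norm_num) hL1
  have h10 : (s ^ k) ^ c1 ≤ s ^ α (F.L n) := by
    rw [← pow_mul]
    exact Nat.pow_le_pow_right hs1 (hm1.trans hmono)
  omega

theorem L_small (F : H18.CB.Frm) {α : ℕ → ℕ} (hα : Slow zero α)
    (ha : ∀ n, F.a n = lam (α (Nat.log 2 n))) (d : ℕ) :
    ∃ K : ℕ, ∀ n, dP n = true → K ≤ lam (F.a n) → (F.L n + 2) ^ d ≤ n := by
  obtain ⟨Q, hQ⟩ := poly_bound hα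
  have hP : ∃ P : Polynomial ℕ, ∀ n, F.L n + 2 ≤ P.eval (Nat.log 2 n) := by
    refine ⟨Polynomial.C (2 * F.D) * ((Polynomial.X + 2) * (Q + 1)) + 12, fun n => ?_⟩
    rw [L_eq]
    simp only [Polynomial.eval_add, Polynomial.eval_mul, Polynomial.eval_C, Polynomial.eval_X,
      Polynomial.eval_one, Polynomial.eval_ofNat]
    have h4 : F.a n ≤ Q.eval (Nat.log 2 n) := by
      rw [ha n]
      exact (lam_le _).trans (hQ _)
    have h5 : F.D * ((Nat.log 2 n + 2) * (F.a n + 1)) ≤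
        F.D * ((Nat.log 2 n + 2) * (Q.eval (Nat.log 2 n) + 1)) :=
      Nat.mul_le_mul_left _ (Nat.mul_le_mul_left _ (by omega))
    have h6 : 2 * F.D * ((Nat.log 2 n + 2) * (Q.eval (Nat.log 2 n) + 1)) =
        2 * (F.D * ((Nat.log 2 n + 2) * (Q.eval (Nat.log 2 n) + 1))) := by ring
    omega
  obtain ⟨P, hP⟩ := hP
  obtain ⟨e, he⟩ := exists_pow_bound' (P ^ d)
  obtain ⟨l0, hl0⟩ := pow_small e
  refine ⟨lam (lam (α l0)) + 1, fun n hn hK => ?_⟩
  have h1 : 2 ^ Nat.log 2 n = n := of_decide_eq_true hn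
  have hl : l0 ≤ Nat.log 2 n := by
    by_contra hcon
    have h2 : lam (lam (α (Nat.log 2 n))) ≤ lam (lam (α l0)) :=
      lam_mono (lam_mono (hα.mono (by omega)))
    rw [ha n] at hK
    omega
  have h3 : (F.L n + 2) ^ d ≤ (P.eval (Nat.log 2 n)) ^ d := Nat.pow_le_pow_left (hP n) _
  have h4 := he e le_rfl (Nat.log 2 n)
  rw [Polynomial.eval_pow] at h4
  have h5 := hl0 _ hl
  rw [h1] at h5
  exact h3.trans (h4.trans h5)

/-- polynomials in the size of circuits of size `2 ^ (L / α L)` are small -/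
theorem exists_big (F : H18.CB.Frm) {α : ℕ → ℕ} (hα : Slow zero α)
    (ha : ∀ n, F.a n = lam (α (Nat.log 2 n))) (P : Polynomial ℕ) :
    ∃ K : ℕ, ∀ n, dP n = true → K ≤ lam (F.a n) → ∀ s : ℕ,
      s ^ α (F.L n) ≤ 2 ^ F.L n → P.eval (s + F.L n) ≤ n := by
  obtain ⟨d, hd⟩ := exists_pow_bound' P
  obtain ⟨K1, hK1⟩ := log_bound' F hα.mono ha (2 * d)
  obtain ⟨K2, hK2⟩ := L_small F hα ha (2 * d)
  refine ⟨K1 + K2, fun n hn hK s hs => ?_⟩
  have h1 := hK1 n hn (by omega) s hs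
  have h2 := hK2 n hn (by omega)
  have h3 := hd d le_rfl (s + F.L n)
  refine h3.trans ?_
  rcases Nat.lt_or_ge (F.L n + 2) s with h4 | h4
  · calc (s + F.L n + 2) ^ d ≤ (s ^ 2) ^ d := by
          refine Nat.pow_le_pow_left ?_ _
          exact sq_aux s (F.L n) h4
      _ = s ^ (2 * d) := by rw [← pow_mul]
      _ ≤ n := h1
  · calc (s + F.L n + 2) ^ d ≤ ((F.L n + 2) ^ 2) ^ d := by
          refine Nat.pow_le_pow_left ?_ _
          exact sq_aux' s (F.L n) h4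
      _ = (F.L n + 2) ^ (2 * d) := by rw [← pow_mul]
      _ ≤ n := h2

end Pool.Agent.H79.CP
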