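import Pool.Agent.H79.CP.Defs

set_option autoImplicit false

/-!
# Circuits with search gates for problems which reduce to `T`

The gates for `T'` are replaced by gates for `T` with the programs of the reduction, the numbers of
the wires by their minimum with a bound `W` (entries with larger numbers are `false`).

PROOF of `rdL_lT`: induction on `l` (`len_num`, `List.getD_eq_default`).
PROOF of `run_cT`: induction on `C`.  At a search gate `hred` gives the `T'`-solution
`y = run zero i2 (node (enc z) (enc w)) N`, `z = l.map (fun i => ws.getD i false) = gIn (gT W g) ws` (`rdL_lT` with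
`l.reverse`), `w = dec (fst h)`, and `z.length = l.length ≤ M`.
PROOF of `exists_easy`: `run_red h` (`Pool.Agent.H69.NL.Red`) gives `i1`, `i2`, `B`; `W = sz C + L`, `M = sz C`,
`N = B.eval (sz C + L)`, `P0 = node (num i1) (node (num i2) (node (num N) (cT W C)))`, `u = rpn P0` (`decode_rpn`; the length
is `size P0`, see `rpn_len` in `Pool.Agent.H18.CB.CT`), `P = C (2 * i1 + 2 * i2) + 2 * B + X * (4 * X + 11) + 10` or
anything larger.  `Easy`: for `x.length = L` the list of values `vs = evV ..` satisfies `Run T' C x vs`.
-/

namespace Pool.Agent.H79.CP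

open Pool.Agent.H88.RO Pool.Agent.H88.RO.Tr Pool.Agent.H65.TS Pool.Agent.H65.NU Pool.Agent.H69.NL
open Pool.Agent.H18.CB
open Pool.Agent.H93.BB (Orc zero)

/-- a list of numbers of wires as a tree -/
def lT (W : ℕ) : List ℕ → Tr
  | [] => leaf
  | a :: l => node (num (min a W)) (lT W l)

/-- a gate as a tree -/
def gT (W : ℕ) : Gate → Tr
  | .nand i j => node leaf (node (num (min i W)) (num (min j W)))
  | .search l e => node tt (node (lT W l.reverse) (num e))

/-- a circuit as a tree -/
def cT (W : ℕ) : List Gate → Tr
  | [] => leaf
  | g :: C => node (gT W g) (cT W C)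

private theorem getD_min {W : ℕ} {ws : List Bool} (hW : ws.length ≤ W) (a : ℕ) :
    ws.getD (len (num (min a W))) false = ws.getD a false := by
  rw [len_num]
  by_cases h : a ≤ W
  · rw [min_eq_left h]
  · rw [min_eq_right (by omega), List.getD_eq_default _ _ hW,
      List.getD_eq_default _ _ (by omega)]

theorem rdL_lT {W : ℕ} {ws : List Bool} (hW : ws.length ≤ W) (l : List ℕ) (acc : List Bool) :
    rdL ws (lT W l) acc = (l.map (fun i => ws.getD i false)).reverse ++ acc := by
  induction l generalizing acc with
  | nil => simp [lT, rdL]
  | cons a l ih =>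
    rw [lT, rdL, ih, getD_min hW]
    simp

private theorem size_lT (W : ℕ) (l : List ℕ) : size (lT W l) ≤ l.length * (2 * W + 2) + 1 := by
  induction l with
  | nil => simp [lT, size]
  | cons a l ih =>
    have h : min a W ≤ W := min_le_right _ _
    have h2 : (l.length + 1) * (2 * W + 2) = l.length * (2 * W + 2) + (2 * W + 2) := by ring
    rw [lT, size, size_num, List.length_cons, h2]
    omega

private theorem cut_length (e : ℕ) (y : List Bool) : (cut e y).length = e := by
  rw [cut, List.length_take]
  simp
  omega

private theorem sz_cons (g : Gate) (C : List Gate) : sz (g :: C) = g.size + sz C := by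
  simp [sz]

theorem size_cT (W : ℕ) (C : List Gate) : size (cT W C) ≤ sz C * (4 * W + 11) + 1 := by
  induction C with
  | nil => simp [cT, size]
  | cons g C ih =>
    rw [cT, size, sz_cons, Nat.add_mul]
    have h : size (gT W g) + 1 ≤ g.size * (4 * W + 11) := by
      cases g with
      | nand i j =>
        have h1 : min i W ≤ W := min_le_right _ _
        have h2 : min j W ≤ W := min_le_right _ _
        simp only [gT, size, size_num, Gate.size]
        omega
      | search l e =>
        have h1 := size_lT W l.reverse
        rw [List.length_reverse] at h1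
        simp only [gT, size, size_num, Gate.size, tt]
        nlinarith [Nat.zero_le (l.length * W), Nat.zero_le (e * W), Nat.zero_le l.length,
          Nat.zero_le e, Nat.zero_le W]
    omega

theorem run_cT {T T' : TFNP zero} {i1 i2 N M : ℕ}
    (hred : ∀ z : List Bool, z.length ≤ M → ∀ w, T.IsSol (run zero i1 (enc z) N) w →
      T'.IsSol z (run zero i2 (node (enc z) (enc w)) N)) {W : ℕ} :
    ∀ (C : List Gate) (ws : List Bool) (h : Tr), sz C ≤ M → ws.length + sz C ≤ W →
      evOk T i1 i2 N (cT W C) ws h → Run T' C ws (evV i2 N (cT W C) ws h) := by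
  intro C
  induction C with
  | nil => exact fun ws h _ _ _ => Run.nil ws
  | cons g C ih =>
    intro ws h hM hW hok
    rw [sz_cons] at hM hW
    obtain ⟨h1, h2⟩ := hok
    cases g with
    | nand i j =>
      have e1 : gV i2 N (gT W (Gate.nand i j)) ws h =
          (!(ws.getD i false && ws.getD j false)) :: ws := by
        have h3 : ws.length ≤ W := by omega
        simp only [gV, gT, fst_node, snd_node, if_true]
        rw [getD_min h3, getD_min h3]
      simp only [Gate.size] at hM hW
      rw [cT, evV]
      rw [e1] at h2 ⊢
      refine Run.nand (ih _ _ (by omega) ?_ h2)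
      rw [List.length_cons]
      omega
    | search l e =>
      simp only [Gate.size] at hM hW
      have h3 : ws.length ≤ W := by omega
      have e0 : gIn (gT W (Gate.search l e)) ws = l.map (fun i => ws.getD i false) := by
        simp only [gIn, gT, fst_node, snd_node]
        rw [rdL_lT h3]
        simp
      have e1 : gV i2 N (gT W (Gate.search l e)) ws h =
          cut e (run zero i2 (node (enc (l.map (fun i => ws.getD i false)))
            (enc (dec (fst h)))) N) ++ ws := by
        rw [gV, e0]
        simp only [gT, fst_node, snd_node, len_num]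
        rw [if_neg (by simp [tt])]
      have h4 : T.IsSol (run zero i1 (enc (l.map (fun i => ws.getD i false))) N) (dec (fst h)) := by
        rcases h1 with h1 | h1
        · simp [gT, tt] at h1
        · rwa [e0] at h1
      have h5 := hred (l.map (fun i => ws.getD i false)) (by rw [List.length_map]; omega) _ h4
      rw [cT, evV]
      rw [e1] at h2 ⊢
      refine Run.search h5 (ih _ _ (by omega) ?_ h2)
      rw [List.length_append, cut_length]
      omega

/-- Truth tables computed by small circuits with gates for a problem which reduces to `T` have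
short descriptions. -/
theorem exists_easy {T T' : TFNP zero} (h : T'.Reduces T) : ∃ P : Polynomial ℕ,
    ∀ (L : ℕ) (y : List Bool) (C : List Gate), y.length = 2 ^ L → SComputes T' C y →
      ∃ u : List Bool, u.length ≤ P.eval (sz C + L) ∧ Easy T (decode u) L y := by
  obtain ⟨i1, i2, B, hB⟩ := run_red h
  refine ⟨Polynomial.C (2 * i1 + 2 * i2) + 2 * B +
    Polynomial.X * (4 * Polynomial.X + 11) + 10, fun L y C hy hC => ?_⟩
  have hred : ∀ z : List Bool, z.length ≤ sz C → ∀ w,
      T.IsSol (run zero i1 (enc z) (B.eval (sz C + L))) w →
      T'.IsSol z (run zero i2 (node (enc z) (enc w)) (B.eval (sz C + L))) :=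
    fun z hz w hw => hB z _ (poly_mono B (by omega)) w hw
  refine ⟨rpn (node (num i1) (node (num i2) (node (num (B.eval (sz C + L)))
    (cT (sz C + L) C)))), ?_, ?_⟩
  · rw [rpn_length]
    simp only [size, size_num]
    have h1 := size_cT (sz C + L) C
    have h2 : sz C * (4 * (sz C + L) + 11) ≤ (sz C + L) * (4 * (sz C + L) + 11) :=
      Nat.mul_le_mul_right _ (by omega)
    have h3 : (Polynomial.C (2 * i1 + 2 * i2) + 2 * B +
        Polynomial.X * (4 * Polynomial.X + 11) + 10 : Polynomial ℕ).eval (sz C + L) =
        2 * i1 + 2 * i2 + 2 * B.eval (sz C + L) + (sz C + L) * (4 * (sz C + L) + 11) + 10 := by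
      simp
    rw [h3]
    omega
  · intro x hx h' hv
    rw [decode_rpn] at hv ⊢
    rw [Valid] at hv
    rw [Out]
    simp only [pI, pJ, pK, pC, fst_node, snd_node, len_num] at hv ⊢
    exact hC x (by rw [hy, hx]) _ (run_cT hred C x h' le_rfl (by omega) hv)

end Pool.Agent.H79.CP
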