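import Pool.Agent.H18.CB.Defs

set_option autoImplicit false

/-!
# Circuits with search gates: definitions

Boolean circuits with gates for a total NP search problem, and their description by trees.
-/

namespace Pool.Agent.H79.CP

open Pool.Agent.H88.RO Pool.Agent.H88.RO.Tr Pool.Agent.H65.TS Pool.Agent.H65.NU Pool.Agent.H69.NL
open Pool.Agent.H18.CB
open Pool.Agent.H93.BB (Orc zero)
open Pool.Agent.H93.BB.Tab (val)

/-! ### circuits with search gates -/

/-- A gate of a circuit with search gates.  A circuit is a list of gates, a straight-line program;
the gates refer to the entries of the list of all values known so far, the values of the previous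
gates (newest first) followed by the inputs.
* The gate `nand i j` applies NAND to the entries number `i` and `j`;
* the gate `search l e` takes the string of the entries whose numbers are given by the list `l` as
  an instance of a search problem and has `e` output wires, on which it writes one of the
  solutions of this instance, see `cut`. -/
inductive Gate : Type
  | nand (i j : ℕ) : Gate
  | search (l : List ℕ) (e : ℕ) : Gate

/-- The size of a gate: a search gate with `a` input wires and `e` output wires has size
`a + e + 1`. -/
def Gate.size : Gate → ℕ
  | .nand _ _ => 1
  | .search l e => l.length + e + 1

/-- The size of a circuit. -/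
def sz (C : List Gate) : ℕ := (C.map Gate.size).sum

/-- The string `y` written on `e` wires: the first `e` bits of the sequence `y 1 0 0 0 ...`. -/
def cut (e : ℕ) (y : List Bool) : List Bool := (y ++ true :: List.replicate e false).take e

/-- `Run T C ws vs`: a computation of the circuit `C`, whose search gates answer with arbitrary
`T`-solutions, may lead from the list `ws` of values to the list `vs` of values. -/
inductive Run (T : TFNP zero) : List Gate → List Bool → List Bool → Prop
  | nil (ws : List Bool) : Run T [] ws ws
  | nand {i j : ℕ} {C : List Gate} {ws vs : List Bool}
      (h : Run T C ((!(ws.getD i false && ws.getD j false)) :: ws) vs) :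
      Run T (Gate.nand i j :: C) ws vs
  | search {l : List ℕ} {e : ℕ} {C : List Gate} {ws vs y : List Bool}
      (hy : T.IsSol (l.map (fun i => ws.getD i false)) y) (h : Run T C (cut e y ++ ws) vs) :
      Run T (Gate.search l e :: C) ws vs

/-- The circuit `C` with search gates for `T` computes the function with the truth table `y` of
length `2 ^ L`: for every input `x` of length `L` and for all choices of the `T`-solutions at the
search gates the output, the newest value, is the entry of `y` whose number has the binary
digits `x`. -/
def SComputes (T : TFNP zero) (C : List Gate) (y : List Bool) : Prop :=
  ∀ x : List Bool, y.length = 2 ^ x.length → ∀ vs : List Bool, Run T C x vs →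
    vs.headD false = y.getD (val x) false

/-! ### circuits as trees

The gates are trees `g`: if `fst g` is a leaf then `g` is a NAND gate for the entries number
`len (fst (snd g))` and `len (snd (snd g))`; otherwise it is a search gate with `len (snd (snd g))`
output wires, and `fst (snd g)` is the list of the numbers of the input wires, in reversed order.
The instance for the problem `T` is computed from the string on the input wires by program number
`i1`, and the string on the output wires by program number `i2`, both with the clock `K`.  The
`T`-solutions at the search gates are given by a list `h` (the history). -/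

/-- the entries of `ws` whose numbers are the elements of a list, put in front of `acc` one after
the other -/
def rdL (ws : List Bool) : Tr → List Bool → List Bool
  | leaf, acc => acc
  | node a l, acc => rdL ws l (ws.getD (len a) false :: acc)

/-- the string on the input wires of the gate `g` -/
def gIn (g : Tr) (ws : List Bool) : List Bool := rdL ws (fst (snd g)) []

/-- the list of values after the gate `g` -/
def gV (i2 K : ℕ) (g : Tr) (ws : List Bool) (h : Tr) : List Bool :=
  if fst g = leaf then
    (!(ws.getD (len (fst (snd g))) false && ws.getD (len (snd (snd g))) false)) :: ws
  else cut (len (snd (snd g)))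
    (run zero i2 (node (enc (gIn g ws)) (enc (dec (fst h)))) K) ++ ws

/-- the history after the gate `g` -/
def gH (g h : Tr) : Tr := if fst g = leaf then h else snd h

/-- the first entry of the history is a correct solution at the gate `g` -/
def gOk (T : TFNP zero) (i1 K : ℕ) (g : Tr) (ws : List Bool) (h : Tr) : Prop :=
  fst g = leaf ∨ T.IsSol (run zero i1 (enc (gIn g ws)) K) (dec (fst h))

/-- the list of all values after a list of gates -/
def evV (i2 K : ℕ) : Tr → List Bool → Tr → List Bool
  | leaf, ws, _ => ws
  | node g C, ws, h => evV i2 K C (gV i2 K g ws h) (gH g h)

/-- the history consists of correct solutions -/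
def evOk (T : TFNP zero) (i1 i2 K : ℕ) : Tr → List Bool → Tr → Prop
  | leaf, _, _ => True
  | node g C, ws, h => gOk T i1 K g ws h ∧ evOk T i1 i2 K C (gV i2 K g ws h) (gH g h)

/-- the number of the first program of a description -/
def pI (P : Tr) : ℕ := len (fst P)
/-- the number of the second program of a description -/
def pJ (P : Tr) : ℕ := len (fst (snd P))
/-- the clock of a description -/
def pK (P : Tr) : ℕ := len (fst (snd (snd P)))
/-- the list of gates of a description -/
def pC (P : Tr) : Tr := snd (snd (snd P))

/-- `h` is a correct history for the circuit described by `P` with input `x` -/
def Valid (T : TFNP zero) (P : Tr) (x : List Bool) (h : Tr) : Prop :=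
  evOk T (pI P) (pJ P) (pK P) (pC P) x h

/-- the output of the circuit described by `P` with input `x` and history `h` -/
def Out (P : Tr) (x : List Bool) (h : Tr) : Bool := (evV (pJ P) (pK P) (pC P) x h).headD false

/-- The circuit described by `P` computes the truth table `y` of a function of `L` variables. -/
def Easy (T : TFNP zero) (P : Tr) (L : ℕ) (y : List Bool) : Prop :=
  ∀ x : List Bool, x.length = L → ∀ h : Tr, Valid T P x h → Out P x h = y.getD (val x) false

/-! ### multivalued oracles -/

/-- the oracle given by the circuit described by `P`, with `L` inputs, with the history `h` -/
def hor (P : Tr) (L : ℕ) (h : Tr) : Orc := fun q => decide (q.length ≤ L) && Out P (pad L q) h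

/-- `h` is a correct history for the query described by the tree `x` to the join of this oracle
with `zero` -/
def hok (T : TFNP zero) (P : Tr) (L : ℕ) (h x : Tr) : Prop :=
  ∀ q : List Bool, dec x = false :: q → q.length ≤ L → Valid T P (pad L q) h

/-- the state of the machine with resources `K` after `i` steps from the state `s`; the oracle for
each step is given by the next entry of the list `H` -/
def mst (Ω : Tr → Orc) (K : ℕ) : ℕ → Tr → Tr → Tr
  | 0, _, s => s
  | i + 1, H, s => mst Ω K i (snd H) (cstep (Ω (fst H)) K s)

/-- the entries of the list `H` are correct for the value registers of the states -/
def mok (Ω : Tr → Orc) (V : Tr → Tr → Prop) (K : ℕ) : ℕ → Tr → Tr → Prop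
  | 0, _, _ => True
  | i + 1, H, s => V (fst H) (fst (snd s)) ∧ mok Ω V K i (snd H) (cstep (Ω (fst H)) K s)

end Pool.Agent.H79.CP
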