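import Pool.Agent.H79.CP.GateF

set_option autoImplicit false

/-!
# Programs for the evaluation of circuits with search gates

PROOF. States `s = node P (node C (node W (node h f)))`: description, remaining gates, values, remaining
history, flag.  The step: if `C = fst (snd s)` is a leaf then `s`, otherwise, with `g = fst C`,
`node P (node (snd C) (node (gVT P g W h) (node (cs (fst g) h (snd h)) (andT f (gOT P g W h)))))`
(`andT f t` replaced by `cs f leaf (cs t leaf tt)`, of size at most 3).
By induction on `C`: `len C` steps lead from `node P (node C (node (enc ws) (node h f)))` to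
`node P (node leaf (node (enc (evV (pJ P) (pK P) C ws h)) (node h' f')))` with
`f' ≠ leaf ↔ f ≠ leaf ∧ evOk T (pI P) (pJ P) (pK P) C ws h`.
FP: `FP.iterate'`.  Bound of the size: with the potential
`Φ s = size (fst s) + 4 * size (fst (snd s)) + 4 * len (fst (snd (snd s))) + size (fst (snd (snd (snd s))))`
(description, gates, values, history) every step does not increase `Φ` (by `length_gV`, as
`size C = size g + size (snd C) + 1`; `len (enc _) = length`), and the size after a step is at most
`max (size s) (Φ s + 20)` (`size_enc_le`); so `size (step^[i] s) ≤ size s + Φ s + 20 ≤ 10 * size s + 20`.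
Then `vT` is the flag and `oT` the (normalised) first entry of the values.
-/

namespace Pool.Agent.H79.CP

open Pool.Agent.H88.RO Pool.Agent.H88.RO.Tr Pool.Agent.H65.TS Pool.Agent.H65.NU Pool.Agent.H69.NL
open Pool.Agent.H18.CB
open Pool.Agent.H93.BB (Orc zero)

private theorem fst_enc (l : List Bool) : fst (enc l) = bit (l.headD false) := by
  cases l <;> rfl

/-- one step of the evaluation; states are `node P (node C (node W (node h f)))` -/
private def stp (gVT gOT : Tr → Tr → Tr → Tr → Tr) (s : Tr) : Tr :=
  cs (fst (snd s)) s (node (fst s) (node (snd (fst (snd s)))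
    (node (gVT (fst s) (fst (fst (snd s))) (fst (snd (snd s))) (fst (snd (snd (snd s)))))
      (node (cs (fst (fst (fst (snd s)))) (fst (snd (snd (snd s)))) (snd (fst (snd (snd (snd s))))))
        (cs (snd (snd (snd (snd s)))) leaf
          (cs (gOT (fst s) (fst (fst (snd s))) (fst (snd (snd s))) (fst (snd (snd (snd s))))) leaf
            tt))))))

private def pot (s : Tr) : ℕ :=
  size (fst s) + 4 * size (fst (snd s)) + 4 * len (fst (snd (snd s))) + size (fst (snd (snd (snd s))))

private theorem stp_bound {gVT : Tr → Tr → Tr → Tr → Tr} (gOT : Tr → Tr → Tr → Tr → Tr)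
    (hV : ∀ P g W h, gVT P g W h = enc (gV (pJ P) (pK P) g (dec W) h)) (s : Tr) :
    pot (stp gVT gOT s) ≤ pot s ∧ size (stp gVT gOT s) ≤ max (size s) (pot s + 8) := by
  unfold stp
  by_cases h : fst (snd s) = leaf
  · rw [cs_pos _ _ h]
    exact ⟨le_rfl, le_max_left _ _⟩
  · rw [cs_neg _ _ h]
    obtain ⟨g, C, hgC⟩ : ∃ g C, fst (snd s) = node g C := by
      cases hc : fst (snd s) with
      | leaf => exact absurd hc h
      | node g C => exact ⟨g, C, rfl⟩
    rw [hgC]
    simp only [fst_node, snd_node]
    rw [hV]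
    have h1 := length_gV (pJ (fst s)) (pK (fst s)) g (dec (fst (snd (snd s))))
      (fst (snd (snd (snd s))))
    rw [length_dec] at h1
    have h2 := size_enc_le (gV (pJ (fst s)) (pK (fst s)) g (dec (fst (snd (snd s))))
      (fst (snd (snd (snd s)))))
    have h3 : size (cs (fst g) (fst (snd (snd (snd s)))) (snd (fst (snd (snd (snd s)))))) ≤
        size (fst (snd (snd (snd s)))) := by
      unfold cs
      split_ifs
      · exact le_rfl
      · exact size_snd_le _
    have h4 : size (cs (snd (snd (snd (snd s)))) leaf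
          (cs (gOT (fst s) g (fst (snd (snd s))) (fst (snd (snd (snd s))))) leaf tt)) ≤ 3 := by
      unfold cs
      split_ifs <;> simp [tt, size]
    have h5 : pot s = size (fst s) + 4 * (size g + size C + 1) + 4 * len (fst (snd (snd s))) +
        size (fst (snd (snd (snd s)))) := by
      unfold pot
      rw [hgC]
      rfl
    constructor
    · rw [h5]
      unfold pot
      simp only [fst_node, snd_node, len_enc]
      omega
    · refine le_trans ?_ (le_max_right _ _)
      rw [h5]
      simp only [size]
      omega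

private theorem pot_le (s : Tr) : pot s ≤ 10 * size s := by
  unfold pot
  have h1 := size_fst_le s
  have h2 := size_snd_le s
  have h3 := size_fst_le (snd s)
  have h4 := size_snd_le (snd s)
  have h5 := size_fst_le (snd (snd s))
  have h6 := size_snd_le (snd (snd s))
  have h7 := size_fst_le (snd (snd (snd s)))
  have h8 := len_le_size (fst (snd (snd s)))
  omega

private theorem stp_iter_bound {gVT : Tr → Tr → Tr → Tr → Tr} (gOT : Tr → Tr → Tr → Tr → Tr)
    (hV : ∀ P g W h, gVT P g W h = enc (gV (pJ P) (pK P) g (dec W) h)) (s : Tr) (i : ℕ) :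
    pot ((stp gVT gOT)^[i] s) ≤ pot s ∧ size ((stp gVT gOT)^[i] s) ≤ max (size s) (pot s + 8) := by
  induction i with
  | zero => exact ⟨le_rfl, le_max_left _ _⟩
  | succ i ih =>
    rw [Function.iterate_succ_apply']
    have h1 := stp_bound gOT hV ((stp gVT gOT)^[i] s)
    refine ⟨h1.1.trans ih.1, h1.2.trans (max_le ih.2 ?_)⟩
    exact le_trans (by have := ih.1; omega) (le_max_right _ _)

private theorem FP_stp {gVT gOT : Tr → Tr → Tr → Tr → Tr}
    (hV : ∀ {A B C D : Tr → Tr}, FP zero A → FP zero B → FP zero C → FP zero D →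
      FP zero (fun v => gVT (A v) (B v) (C v) (D v)))
    (hO : ∀ {A B C D : Tr → Tr}, FP zero A → FP zero B → FP zero C → FP zero D →
      FP zero (fun v => gOT (A v) (B v) (C v) (D v))) : FP zero (stp gVT gOT) := by
  have p0 : FP zero (fun s : Tr => fst s) := FP.fst' FP.id'
  have s1 : FP zero (fun s : Tr => snd s) := FP.snd' FP.id'
  have p1 : FP zero (fun s : Tr => fst (snd s)) := FP.fst' s1
  have s2 : FP zero (fun s : Tr => snd (snd s)) := FP.snd' s1
  have p2 : FP zero (fun s : Tr => fst (snd (snd s))) := FP.fst' s2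
  have s3 : FP zero (fun s : Tr => snd (snd (snd s))) := FP.snd' s2
  have p3 : FP zero (fun s : Tr => fst (snd (snd (snd s)))) := FP.fst' s3
  have s4 : FP zero (fun s : Tr => snd (snd (snd (snd s)))) := FP.snd' s3
  have hg : FP zero (fun s : Tr => fst (fst (snd s))) := FP.fst' p1
  unfold stp
  exact FP.cs' p1 FP.id' (FP.node' p0 (FP.node' (FP.snd' p1) (FP.node' (hV p0 hg p2 p3)
    (FP.node' (FP.cs' (FP.fst' hg) p3 (FP.snd' p3)) (FP.cs' s4 FP.leaf'
      (FP.cs' (hO p0 hg p2 p3) FP.leaf' (FP.const' _)))))))

private theorem stp_iter (T : TFNP zero) {gVT gOT : Tr → Tr → Tr → Tr → Tr}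
    (hV : ∀ P g W h, gVT P g W h = enc (gV (pJ P) (pK P) g (dec W) h))
    (hO : ∀ P g W h, gOT P g W h ≠ leaf ↔ gOk T (pI P) (pK P) g (dec W) h) (P C : Tr) :
    ∀ (ws : List Bool) (h f : Tr), ∃ h' f' : Tr,
      (stp gVT gOT)^[len C] (node P (node C (node (enc ws) (node h f)))) =
        node P (node leaf (node (enc (evV (pJ P) (pK P) C ws h)) (node h' f'))) ∧
      (f' ≠ leaf ↔ f ≠ leaf ∧ evOk T (pI P) (pJ P) (pK P) C ws h) := by
  induction C with
  | leaf =>
    intro ws h f
    refine ⟨h, f, rfl, ?_⟩
    rw [evOk, and_true]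
  | node g C _ ih =>
    intro ws h f
    rw [len, Function.iterate_succ_apply]
    have e : stp gVT gOT (node P (node (node g C) (node (enc ws) (node h f)))) =
        node P (node C (node (enc (gV (pJ P) (pK P) g ws h)) (node (gH g h)
          (cs f leaf (cs (gOT P g (enc ws) h) leaf tt))))) := by
      rw [stp, cs_neg _ _ (by simp)]
      simp only [fst_node, snd_node]
      rw [hV, dec_enc]
      rfl
    rw [e]
    obtain ⟨h', f', h1, h2⟩ := ih (gV (pJ P) (pK P) g ws h) (gH g h)
      (cs f leaf (cs (gOT P g (enc ws) h) leaf tt))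
    refine ⟨h', f', h1, h2.trans ?_⟩
    rw [evOk]
    have h3 := hO P g (enc ws) h
    rw [dec_enc] at h3
    rw [← h3]
    by_cases hf : f = leaf
    · rw [cs_pos _ _ hf]
      simp [hf]
    · rw [cs_neg _ _ hf]
      by_cases hg : gOT P g (enc ws) h = leaf
      · rw [cs_pos _ _ hg]
        simp [hg]
      · rw [cs_neg _ _ hg]
        simp [hf, hg, tt]

/-- Programs for the output and for the correctness of the history (the arguments are the
description, the input and the history). -/
theorem exists_evT (T : TFNP zero) : ∃ oT vT : Tr → Tr → Tr → Tr,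
    (∀ {A B C : Tr → Tr}, FP zero A → FP zero B → FP zero C →
      FP zero (fun v => oT (A v) (B v) (C v))) ∧
    (∀ {A B C : Tr → Tr}, FP zero A → FP zero B → FP zero C →
      FP zero (fun v => vT (A v) (B v) (C v))) ∧
    (∀ P X h, oT P X h = bit (Out P (dec X) h)) ∧
    ∀ P X h, vT P X h ≠ leaf ↔ Valid T P (dec X) h := by
  obtain ⟨gVT, hV1, hV2⟩ := exists_gVT
  obtain ⟨gOT, hO1, hO2⟩ := exists_gOT T
  have hF : ∀ {A B C : Tr → Tr}, FP zero A → FP zero B → FP zero C →
      FP zero (fun v => (stp gVT gOT)^[len (snd (snd (snd (A v))))]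
        (node (A v) (node (snd (snd (snd (A v)))) (node (norm (B v)) (node (C v) tt))))) := by
    intro A B C hA hB hC
    have hp : FP zero (fun v => snd (snd (snd (A v)))) := FP.snd' (FP.snd' (FP.snd' hA))
    refine FP.iterate' (FP_stp hV1 hO1) hp (FP.node' hA (FP.node' hp (FP.node' (FP.norm' hB)
      (FP.node' hC (FP.const' _))))) ?_
    refine ⟨10 * Polynomial.X + 8, fun n x i _ => ?_⟩
    have h1 := (stp_iter_bound gOT hV2 x i).2
    have h2 := pot_le x
    simp only [Polynomial.eval_mul, Polynomial.eval_add, Polynomial.eval_ofNat, Polynomial.eval_X]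
    refine h1.trans (max_le ?_ ?_)
    · omega
    · omega
  refine ⟨fun P X h => fst (fst (snd (snd ((stp gVT gOT)^[len (snd (snd (snd P)))]
      (node P (node (snd (snd (snd P))) (node (norm X) (node h tt)))))))),
    fun P X h => snd (snd (snd (snd ((stp gVT gOT)^[len (snd (snd (snd P)))]
      (node P (node (snd (snd (snd P))) (node (norm X) (node h tt)))))))), ?_, ?_, ?_, ?_⟩
  · intro A B C hA hB hC
    exact FP.fst' (FP.fst' (FP.snd' (FP.snd' (hF hA hB hC))))
  · intro A B C hA hB hC
    exact FP.snd' (FP.snd' (FP.snd' (FP.snd' (hF hA hB hC))))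
  · intro P X h
    obtain ⟨h', f', h1, -⟩ := stp_iter T hV2 hO2 P (snd (snd (snd P))) (dec X) h tt
    show fst (fst (snd (snd ((stp gVT gOT)^[len (snd (snd (snd P)))]
      (node P (node (snd (snd (snd P))) (node (norm X) (node h tt)))))))) = _
    rw [norm_eq, h1]
    simp only [fst_node, snd_node]
    rw [fst_enc]
    rfl
  · intro P X h
    obtain ⟨h', f', h1, h2⟩ := stp_iter T hV2 hO2 P (snd (snd (snd P))) (dec X) h tt
    show snd (snd (snd (snd ((stp gVT gOT)^[len (snd (snd (snd P)))]
      (node P (node (snd (snd (snd P))) (node (norm X) (node h tt)))))))) ≠ leaf ↔ _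
    rw [norm_eq, h1]
    simp only [fst_node, snd_node]
    rw [h2]
    have h3 : tt ≠ leaf := by simp [tt]
    constructor
    · intro h4
      exact h4.2
    · intro h4
      exact ⟨h3, h4⟩

end Pool.Agent.H79.CP
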