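import Pool.Agent.H79.CP.Main
import Pool.Agent.H79.CP.Conv
import Pool.Agent.H79.CP.Big
import Pool.Agent.H18.CB.Fin

set_option autoImplicit false

/-!
# The final form

PROOF. `exists_Frm (slow_comp hα)` gives `F` with `F.a n = lam (α (log n))`, `mainT` gives `S`; `k = 2 * F.D`,
`I = {m | ∃ n, dP n = true ∧ m = (zS F.a n).length + 1 ∧ ∀ y, S.IsSol (ones (F.M n)) y → ..}` (the property
of `mainT`).  `F.M n = 2 ^ m` and `F.L n = 2 * F.D * m + 10` by definition (`Frm.L`, `nL`, `nA`).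
Infinite: `Nat.frequently_atTop_iff_infinite` or `Set.infinite_of_not_bddAbove`: given `b` take `B = lam (F.a (2 ^ b)) + 1`; if
`m ≤ b` then `n ≤ F.M n = 2 ^ m ≤ 2 ^ b` (`Frm.n_le`) and `lam (F.a n) ≤ lam (F.a (2 ^ b))`, a contradiction (see `htot0` in
`Pool.Agent.H18.CB.Main`).
For `T'`: `hT T'` and `exists_easy` give `P`, `exists_big` gives `K`.  There is `B` such that `m ≥ B` implies
`lam (F.a n) ≥ K`: by `exists_large F.ha marks_dP [] K` (or `lam_large`, `F.ha.unbounded`, monotonicity) there is `n0` such that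
`n ≥ n0` implies `K ≤ lam (F.a n)`, and `n ≤ n0` implies `m ≤ (zS F.a n0).length + 1` (`zS_length` and
monotonicity of `log` and `F.a`), so `B = (zS F.a n0).length + 2`.
If `sz C ^ α L ≤ 2 ^ L` then `P.eval (sz C + L) ≤ n`, so `u` of `exists_easy` contradicts the property of `n`.
-/

namespace Pool.Agent.H79.CP

open Pool.Agent.H88.RO Pool.Agent.H88.RO.Tr Pool.Agent.H65.TS Pool.Agent.H65.NU Pool.Agent.H69.NL
open Pool.Agent.H18.CB
open Pool.Agent.H93.BB (Orc zero)
open Pool.Agent.H40.EL (lam)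

/-- A complete total NP search problem gives a total NP search problem with hard solutions. -/
theorem hard_solutions' {T : TFNP zero} (hT : T.IsComplete) {α : ℕ → ℕ} (hα : Slow zero α) :
    ∃ (S : TFNP zero) (k : ℕ) (I : Set ℕ), 0 < k ∧ I.Infinite ∧
      (∀ m ∈ I, ∀ y : List Bool, S.IsSol (ones (2 ^ m)) y → y.length = 2 ^ (k * m + 10)) ∧
      ∀ T' : TFNP zero, ∃ B : ℕ, ∀ m ∈ I, B ≤ m → ∀ y : List Bool, S.IsSol (ones (2 ^ m)) y →
        ∀ C : List Gate, SComputes T' C y → 2 ^ (k * m + 10) < sz C ^ α (k * m + 10) := by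
  obtain ⟨F, hF⟩ := exists_Frm (slow_comp hα)
  have ha : ∀ n, F.a n = lam (α (Nat.log 2 n)) := fun n => by rw [hF]
  obtain ⟨S, hS⟩ := mainT F T hT
  have hlam : Monotone (fun n => lam (F.a n)) := by
    intro p q h
    show lam (F.a p) ≤ lam (F.a q)
    unfold lam
    exact Nat.log_mono_right (Nat.log_mono_right (Nat.add_le_add_right (F.ha.mono h) 2))
  have hL : ∀ n, F.L n = 2 * F.D * ((zS F.a n).length + 1) + 10 := by
    intro n
    unfold H18.CB.Frm.L nL nA
    ring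
  have hD : 0 < 2 * F.D := by
    unfold H18.CB.Frm.D
    omega
  let P : ℕ → Prop := fun n => ∀ y : List Bool, S.IsSol (ones (F.M n)) y → y.length = 2 ^ F.L n ∧
        ∀ u : List Bool, u.length ≤ n → ¬ Easy T (decode u) (F.L n) y
  refine ⟨S, 2 * F.D, {m | ∃ n, dP n = true ∧ m = (zS F.a n).length + 1 ∧ P n}, hD, ?_, ?_, ?_⟩
  · refine Set.infinite_of_not_bddAbove ?_
    rintro ⟨b, hb⟩
    obtain ⟨n, hn1, hn2, hn3⟩ := hS (lam (F.a (2 ^ b)) + 1)
    have h1 : (zS F.a n).length + 1 ≤ b := hb ⟨n, hn1, rfl, hn3⟩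
    have h2 : n ≤ 2 ^ b := by
      have h0 : F.M n ≤ 2 ^ b := Nat.pow_le_pow_right (by norm_num) h1
      have := F.n_le n
      omega
    have h3 := hlam h2
    simp only at h3
    omega
  · rintro m ⟨n, _, rfl, hP⟩ y hy
    rw [← hL]
    exact (hP y hy).1
  · intro T'
    obtain ⟨p, hp⟩ := exists_easy (hT T')
    obtain ⟨K, hK⟩ := exists_big F hα ha p
    obtain ⟨n0, _, _, hn0⟩ := exists_large F.ha marks_dP [] K
    refine ⟨(zS F.a n0).length + 2, ?_⟩
    rintro m ⟨n, hn, rfl, hP⟩ hm y hy C hC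
    rw [← hL]
    have h1 : n0 ≤ n := by
      by_contra hcon
      have h2 := zS_length F.a n
      have h3 := zS_length F.a n0
      have h4 : (Nat.log 2 n + 2) * (F.a n + 1) ≤ (Nat.log 2 n0 + 2) * (F.a n0 + 1) :=
        Nat.mul_le_mul (Nat.add_le_add_right (Nat.log_mono_right (by omega)) 2)
          (Nat.add_le_add_right (F.ha.mono (by omega)) 1)
      omega
    have h2 : K ≤ lam (F.a n) := hn0.trans (hlam h1)
    obtain ⟨h3, h4⟩ := hP y hy
    by_contra hcon
    rw [not_lt] at hcon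
    obtain ⟨u, hu1, hu2⟩ := hp (F.L n) y C h3 hC
    exact h4 u (hu1.trans (hK n hn h2 _ hcon)) hu2

end Pool.Agent.H79.CP
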