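import Pool.Agent.H79.CP.Rd

set_option autoImplicit false

/-!
# Programs for one gate

PROOF. `gVT`, `gOT` are compositions: use `rdT_eq`, `cutT_eq`, `runT_eq`, `appT_enc`, `norm_eq`, and
for the entries `dropU_enc` (`Pool.Agent.H65.TS.Pos`); `gOT`: `qT_spec` (`Pool.Agent.H65.TS.Large`), `dec_enc`.
(The definitions in this file may be changed, they are used only through the theorems.)
-/

namespace Pool.Agent.H79.CP

open Pool.Agent.H88.RO Pool.Agent.H88.RO.Tr Pool.Agent.H65.TS Pool.Agent.H65.NU Pool.Agent.H69.NL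
open Pool.Agent.H18.CB
open Pool.Agent.H93.BB (Orc zero)

/-- the entry number `n` of a string -/
theorem fst_enc_drop (ws : List Bool) : ∀ n : ℕ, fst (enc (ws.drop n)) = bit (ws.getD n false) := by
  induction ws with
  | nil => intro n; simp [enc, bit, fst]
  | cons b ws ih =>
    intro n
    cases n with
    | zero => simp [enc, fst]
    | succ n =>
      rw [List.drop_succ_cons, ih n]
      simp

/-- NAND of two bits -/
theorem cs_nand (a b : Bool) : cs (bit a) tt (cs (bit b) tt leaf) = bit (!(a && b)) := by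
  cases a <;> cases b <;> rfl

/-- Program for `gV`: the list of values after the gate `g` (the arguments are the description `P`,
the gate, the list of values and the history). -/
theorem exists_gVT : ∃ gVT : Tr → Tr → Tr → Tr → Tr,
    (∀ {A B C D : Tr → Tr}, FP zero A → FP zero B → FP zero C → FP zero D →
      FP zero (fun v => gVT (A v) (B v) (C v) (D v))) ∧
    ∀ P g W h, gVT P g W h = enc (gV (pJ P) (pK P) g (dec W) h) := by
  refine ⟨fun P g W h => cs (fst g)
    (node (cs (fst (dropU (fst (snd g)) (norm W))) tt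
      (cs (fst (dropU (snd (snd g)) (norm W))) tt leaf)) (norm W))
    (appT (cutT (snd (snd g)) (runT zero (fst (snd P)) (node (rdT W (fst (snd g))) (norm (fst h)))
      (fst (snd (snd P))))) (norm W)), ?_, ?_⟩
  · intro A B C D hA hB hC hD
    exact FP.cs' (FP.fst' hB)
      (FP.node' (FP.cs' (FP.fst' (FP.dropU' (FP.fst' (FP.snd' hB)) (FP.norm' hC))) (FP.const' _)
        (FP.cs' (FP.fst' (FP.dropU' (FP.snd' (FP.snd' hB)) (FP.norm' hC))) (FP.const' _)
          FP.leaf')) (FP.norm' hC))
      (FP.appT' (FP.cutT' (FP.snd' (FP.snd' hB)) (FP.runT' (FP.fst' (FP.snd' hA))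
        (FP.node' (FP.rdT' hC (FP.fst' (FP.snd' hB))) (FP.norm' (FP.fst' hD)))
        (FP.fst' (FP.snd' (FP.snd' hA))))) (FP.norm' hC))
  · intro P g W h
    dsimp only
    by_cases hg : fst g = leaf
    · rw [cs_pos _ _ hg, gV, if_pos hg, norm_eq, dropU_enc, dropU_enc, fst_enc_drop, fst_enc_drop,
        cs_nand]
      rfl
    · rw [cs_neg _ _ hg, gV, if_neg hg, norm_eq, norm_eq, rdT_eq, runT_eq, cutT_eq, dec_enc,
        appT_enc]
      rfl

/-- Program for `gOk`. -/
theorem exists_gOT (T : TFNP zero) : ∃ gOT : Tr → Tr → Tr → Tr → Tr,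
    (∀ {A B C D : Tr → Tr}, FP zero A → FP zero B → FP zero C → FP zero D →
      FP zero (fun v => gOT (A v) (B v) (C v) (D v))) ∧
    ∀ P g W h, gOT P g W h ≠ leaf ↔ gOk T (pI P) (pK P) g (dec W) h := by
  obtain ⟨PT, hT1, hT2⟩ := exists_polyT T.p
  refine ⟨fun P g W h => cs (fst g) tt (qT T.R PT
    (runT zero (fst P) (rdT W (fst (snd g))) (fst (snd (snd P)))) (fst h)), ?_, ?_⟩
  · intro A B C D hA hB hC hD
    exact FP.cs' (FP.fst' hB) (FP.const' _) (FP.qT' T.polyTime (hT2 zero)
      (FP.runT' (FP.fst' hA) (FP.rdT' hC (FP.fst' (FP.snd' hB))) (FP.fst' (FP.snd' (FP.snd' hA))))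
      (FP.fst' hD))
  · intro P g W h
    dsimp only
    by_cases hg : fst g = leaf
    · rw [cs_pos _ _ hg, gOk]
      simp only [ne_eq, tt_ne, not_false_eq_true, true_iff]
      exact Or.inl hg
    · rw [cs_neg _ _ hg, gOk, qT_spec hT1, runT_eq, rdT_eq, dec_enc, or_iff_right hg]
      rfl

/-- the values after a gate -/
theorem length_gV (i2 K : ℕ) (g : Tr) (ws : List Bool) (h : Tr) :
    (gV i2 K g ws h).length ≤ ws.length + size g := by
  unfold gV
  by_cases hg : fst g = leaf
  · rw [if_pos hg, List.length_cons]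
    have h1 := len_le_size g
    omega
  · rw [if_neg hg, List.length_append, length_cut]
    have h1 := len_le_size (snd (snd g))
    have h2 := size_snd_le (snd g)
    have h3 := size_snd_le g
    omega

end Pool.Agent.H79.CP
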