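import Pool.Agent.H79.CP.Defs

set_option autoImplicit false

/-!
# Correct histories exist

PROOF. Induction on the list of gates `C`, for all `ws`: at a search gate take a `T`-solution `w` of
`run zero i1 (enc (gIn g ws)) K` (`T.total`; its length is at most `T.p.eval K` as the instance has length at
most `K`, `run_length`, `poly_mono`), and `h = node (enc w) h'`, `dec (fst h) = w` (`dec_enc`); at a NAND gate
`h = h'`.  So `size h ≤ len C * (4 * T.p.eval K + 2) + 1` (`size_enc_le`), and `len (pC P) ≤ size P`,
`pK P ≤ size P` (`len_le_size`, `size_fst_le`, `size_snd_le`).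
-/

namespace Pool.Agent.H79.CP

open Pool.Agent.H88.RO Pool.Agent.H88.RO.Tr Pool.Agent.H65.TS Pool.Agent.H65.NU Pool.Agent.H69.NL
open Pool.Agent.H18.CB
open Pool.Agent.H93.BB (Orc zero)

private theorem exists_ok (T : TFNP zero) (i1 i2 K : ℕ) : ∀ (C : Tr) (ws : List Bool),
    ∃ h : Tr, evOk T i1 i2 K C ws h ∧ size h ≤ len C * (4 * T.p.eval K + 2) + 1 := by
  intro C
  induction C with
  | leaf =>
    intro ws
    exact ⟨leaf, trivial, by simp [size]⟩
  | node g C _ ih =>
    intro ws
    by_cases hg : fst g = leaf
    · obtain ⟨h', h1, h2⟩ := ih (gV i2 K g ws leaf)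
      have hV : gV i2 K g ws h' = gV i2 K g ws leaf := by
        unfold gV
        rw [if_pos hg, if_pos hg]
      have hH : gH g h' = h' := by
        unfold gH
        rw [if_pos hg]
      refine ⟨h', ⟨Or.inl hg, ?_⟩, ?_⟩
      · rw [hV, hH]
        exact h1
      · have h3 : len (node g C) = len C + 1 := rfl
        rw [h3, Nat.add_mul]
        omega
    · obtain ⟨w, hw1, hw2⟩ := T.total (run zero i1 (enc (gIn g ws)) K)
      obtain ⟨h', h1, h2⟩ := ih (gV i2 K g ws (node (enc w) leaf))
      have hV : gV i2 K g ws (node (enc w) h') = gV i2 K g ws (node (enc w) leaf) := by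
        unfold gV
        rw [if_neg hg, if_neg hg]
        rfl
      have hH : gH g (node (enc w) h') = h' := by
        unfold gH
        rw [if_neg hg]
        rfl
      have hd : dec (fst (node (enc w) h')) = w := dec_enc w
      refine ⟨node (enc w) h', ⟨Or.inr ?_, ?_⟩, ?_⟩
      · rw [hd]
        exact ⟨hw1, hw2⟩
      · rw [hV, hH]
        exact h1
      · have h3 : len (node g C) = len C + 1 := rfl
        have h4 : size (node (enc w) h') = size (enc w) + size h' + 1 := rfl
        have h5 := size_enc_le w
        have h6 : T.p.eval (run zero i1 (enc (gIn g ws)) K).length ≤ T.p.eval K :=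
          poly_mono T.p (run_length i1 _ K)
        rw [h3, h4, Nat.add_mul]
        omega

theorem exists_valid (T : TFNP zero) : ∃ B : Polynomial ℕ, ∀ (P : Tr) (x : List Bool),
    ∃ h : Tr, Valid T P x h ∧ size h ≤ B.eval (size P) := by
  refine ⟨Polynomial.X * (4 * T.p + 2) + 1, fun P x => ?_⟩
  obtain ⟨h, h1, h2⟩ := exists_ok T (pI P) (pJ P) (pK P) (pC P) x
  refine ⟨h, h1, h2.trans ?_⟩
  have hC : len (pC P) ≤ size P := by
    have h3 := len_le_size (pC P)
    have h4 : size (pC P) ≤ size P :=
      (size_snd_le _).trans ((size_snd_le _).trans (size_snd_le _))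
    omega
  have hK : pK P ≤ size P := by
    have h3 := len_le_size (fst (snd (snd P)))
    have h4 : size (fst (snd (snd P))) ≤ size P :=
      (size_fst_le _).trans ((size_snd_le _).trans (size_snd_le _))
    unfold pK
    omega
  have h5 : T.p.eval (pK P) ≤ T.p.eval (size P) := poly_mono T.p hK
  have h6 : (Polynomial.X * (4 * T.p + 2) + 1 : Polynomial ℕ).eval (size P) =
      size P * (4 * T.p.eval (size P) + 2) + 1 := by
    simp
  rw [h6]
  exact Nat.add_le_add_right (Nat.mul_le_mul hC (by omega)) 1

end Pool.Agent.H79.CP
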