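import Pool.Agent.H79.CP.Defs

set_option autoImplicit false

/-!
# Runs of the machine with a multivalued oracle: the program

`Ω` is an oracle with a parameter `node e h`, where `e` is fixed during the run and `h` is read from
the list `H`; `VT` is a test for the pairs `node (node e h) x`.

PROOF. States `s' = node (node e k) (node f (node H s))`, `k` the resources in unary, `f` a flag. The step
`node (fst s') (node (cs f leaf (cs (VT (node (node e (fst H)) (fst (snd s)))) leaf tt)) (node (snd H)
  (cs (sizeT s k) (step (Ω (node e (fst H))) s) leaf)))`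
(`cstepΩ` and `FP.stepΩ`, `FP.cstepΩ'` in `Pool.Agent.H65.TS.Par`; `sizeT_eq_leaf`).  By induction on `i`: `i`
steps lead from `node (node e k) (node f (node H s))` to `node (node e k) (node f' (node H'
(mst _ (len k) i H s)))` with `f' ≠ leaf ↔ f ≠ leaf ∧ mok ..`.  FP: as in the proof of `FP.UΩ` there
(`FP.iterate'`; after a step the size of `s` is at most a constant times the resources,
`size_cstep_le`, the size of `H` does not increase, the flag has size at most 3).
-/

namespace Pool.Agent.H79.CP

open Pool.Agent.H88.RO Pool.Agent.H88.RO.Tr Pool.Agent.H65.TS Pool.Agent.H65.NU Pool.Agent.H69.NL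
open Pool.Agent.H18.CB
open Pool.Agent.H93.BB (Orc zero)

/-- one step -/
private def mStep (Ω : Tr → Orc) (VT : Tr → Tr) (S : Tr) : Tr :=
  node (fst S) (node (cs (fst (snd S)) leaf
    (cs (VT (node (node (fst (fst S)) (fst (fst (snd (snd S))))) (fst (snd (snd (snd (snd S)))))))
      leaf tt))
    (node (snd (fst (snd (snd S))))
      (cs (sizeT (snd (snd (snd S))) (snd (fst S)))
        (step (Ω (node (fst (fst S)) (fst (fst (snd (snd S)))))) (snd (snd (snd S)))) leaf)))

private theorem cs_step (O : Orc) (s k : Tr) : cs (sizeT s k) (step O s) leaf = cstep O (len k) s := by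
  unfold cs cstep
  simp only [sizeT_eq_leaf]

private theorem FP_mStep {Ω : Tr → Orc} (hΩ : FPO zero Ω) {VT : Tr → Tr} (hV : FP zero VT) :
    FP zero (mStep Ω VT) := by
  have h1 : FP zero (fun v : Tr => fst v) := FP.fst' FP.id'
  have h2 : FP zero (fun v : Tr => snd v) := FP.snd' FP.id'
  have hs : FP zero (fun v : Tr => snd (snd (snd v))) := FP.snd' (FP.snd' h2)
  have hH : FP zero (fun v : Tr => fst (snd (snd v))) := FP.fst' (FP.snd' h2)
  have he : FP zero (fun v : Tr => node (fst (fst v)) (fst (fst (snd (snd v))))) :=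
    FP.node' (FP.fst' h1) (FP.fst' hH)
  have hq : FP zero (fun v : Tr => VT (node (node (fst (fst v)) (fst (fst (snd (snd v)))))
      (fst (snd (snd (snd (snd v))))))) :=
    FP.comp' (F := VT) hV (FP.node' he (FP.fst' (FP.snd' hs)))
  unfold mStep
  exact FP.node' h1 (FP.node' (FP.cs' (FP.fst' h2) FP.leaf' (FP.cs' hq FP.leaf' (FP.const' _)))
    (FP.node' (FP.snd' hH) (FP.cs' (FP.sizeT' hs (FP.snd' h1)) (FP.stepΩ hΩ he hs) FP.leaf')))

private theorem mStep_iter (Ω : Tr → Orc) (VT : Tr → Tr) (e k : Tr) (i : ℕ) : ∀ f H s : Tr,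
    ∃ f' : Tr, (mStep Ω VT)^[i] (node (node e k) (node f (node H s))) =
      node (node e k) (node f' (node (snd^[i] H) (mst (fun h => Ω (node e h)) (len k) i H s))) ∧
      (f' ≠ leaf ↔ f ≠ leaf ∧
        mok (fun h => Ω (node e h)) (fun h x => VT (node (node e h) x) ≠ leaf) (len k) i H s) := by
  induction i with
  | zero =>
    intro f H s
    exact ⟨f, rfl, by simp only [mok, and_true]⟩
  | succ i ih =>
    intro f H s
    obtain ⟨f₁, hf₁⟩ : ∃ f₁, f₁ = cs f leaf (cs (VT (node (node e (fst H)) (fst (snd s)))) leaf tt) :=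
      ⟨_, rfl⟩
    have h1 : mStep Ω VT (node (node e k) (node f (node H s))) =
        node (node e k) (node f₁ (node (snd H) (cstep (Ω (node e (fst H))) (len k) s))) := by
      rw [hf₁, ← cs_step]
      simp only [mStep, fst_node, snd_node]
    obtain ⟨f', h2, h3⟩ := ih f₁ (snd H) (cstep (Ω (node e (fst H))) (len k) s)
    refine ⟨f', ?_, ?_⟩
    · rw [Function.iterate_succ_apply, h1, h2, Function.iterate_succ_apply]
      rfl
    · rw [h3]
      have h4 : f₁ ≠ leaf ↔ f ≠ leaf ∧ VT (node (node e (fst H)) (fst (snd s))) ≠ leaf := by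
        rw [hf₁]
        by_cases h5 : f = leaf
        · rw [cs_pos _ _ h5]
          simp [h5]
        · rw [cs_neg _ _ h5]
          by_cases h6 : VT (node (node e (fst H)) (fst (snd s))) = leaf
          · rw [cs_pos _ _ h6]
            simp [h6]
          · rw [cs_neg _ _ h6]
            simp [h5, h6, tt]
      rw [h4, and_assoc]
      rfl

private theorem mStep_fst (Ω : Tr → Orc) (VT : Tr → Tr) (x : Tr) (i : ℕ) :
    fst ((mStep Ω VT)^[i] x) = fst x := by
  induction i with
  | zero => rfl
  | succ i ih =>
    rw [Function.iterate_succ_apply', mStep, fst_node]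
    exact ih

private theorem mStep_H (Ω : Tr → Orc) (VT : Tr → Tr) (x : Tr) (i : ℕ) :
    size (fst (snd (snd ((mStep Ω VT)^[i] x)))) ≤ size x := by
  induction i with
  | zero =>
    have h1 := size_fst_le (snd (snd x))
    have h2 := size_snd_le (snd x)
    have h3 := size_snd_le x
    exact h1.trans (h2.trans h3)
  | succ i ih =>
    rw [Function.iterate_succ_apply', mStep, snd_node, snd_node, fst_node]
    exact (size_snd_le _).trans ih

private theorem mStep_size (Ω : Tr → Orc) (VT : Tr → Tr) (x : Tr) (i : ℕ) :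
    size ((mStep Ω VT)^[i] x) ≤ 4 * size x + 30 := by
  cases i with
  | zero => simp; omega
  | succ i =>
    rw [Function.iterate_succ_apply', mStep, cs_step, mStep_fst]
    have h1 := size_cstep_le (O := Ω (node (fst (fst x)) (fst (fst (snd (snd ((mStep Ω VT)^[i] x)))))))
      (len (snd (fst x))) (snd (snd (snd ((mStep Ω VT)^[i] x))))
    have h2 := len_le_size (snd (fst x))
    have h3 := size_snd_le (fst x)
    have h4 := size_fst_le x
    have h5 := mStep_H Ω VT x i
    have h6 := size_snd_le (fst (snd (snd ((mStep Ω VT)^[i] x))))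
    have h7 : ∀ p q : Tr, size (cs p leaf (cs q leaf tt)) ≤ 3 := by
      intro p q
      unfold cs
      split_ifs <;> simp [tt, size]
    have h8 := h7 (fst (snd ((mStep Ω VT)^[i] x))) (VT (node (node (fst (fst x))
      (fst (fst (snd (snd ((mStep Ω VT)^[i] x))))))
      (fst (snd (snd (snd (snd ((mStep Ω VT)^[i] x))))))))
    simp only [size]
    omega

/-- A program for the flag and for the last state. -/
theorem exists_mT {Ω : Tr → Orc} (hΩ : FPO zero Ω) {VT : Tr → Tr} (hV : FP zero VT) :
    ∃ M : Tr → Tr → Tr → Tr → Tr,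
      (∀ {A B C D : Tr → Tr}, FP zero A → FP zero B → FP zero C → FP zero D →
        FP zero (fun v => M (A v) (B v) (C v) (D v))) ∧
      ∀ e k H s,
        snd (M e k H s) = mst (fun h => Ω (node e h)) (len k) (len k) H s ∧
        (fst (M e k H s) ≠ leaf ↔
          mok (fun h => Ω (node e h)) (fun h x => VT (node (node e h) x) ≠ leaf) (len k) (len k)
            H s) := by
  refine ⟨fun e k H s =>
    node (fst (snd ((mStep Ω VT)^[len k] (node (node e k) (node tt (node H s))))))
      (snd (snd (snd ((mStep Ω VT)^[len k] (node (node e k) (node tt (node H s))))))), ?_, ?_⟩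
  · intro A B C D hA hB hC hD
    have h1 : FP zero (fun v => (mStep Ω VT)^[len (B v)] (node (node (A v) (B v))
        (node tt (node (C v) (D v))))) := by
      refine FP.iterate' (FP_mStep hΩ hV) hB (FP.node' (FP.node' hA hB) (FP.node' (FP.const' _)
        (FP.node' hC hD))) ⟨4 * Polynomial.X + 30, fun n x i _ => ?_⟩
      have h2 := mStep_size Ω VT x i
      simp only [Polynomial.eval_add, Polynomial.eval_mul, Polynomial.eval_ofNat, Polynomial.eval_X]
      omega
    exact FP.node' (FP.fst' (FP.snd' h1)) (FP.snd' (FP.snd' (FP.snd' h1)))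
  · intro e k H s
    obtain ⟨f', h1, h2⟩ := mStep_iter Ω VT e k (len k) tt H s
    constructor
    · show snd (snd (snd ((mStep Ω VT)^[len k] (node (node e k) (node tt (node H s)))))) = _
      rw [h1]
      rfl
    · show fst (snd ((mStep Ω VT)^[len k] (node (node e k) (node tt (node H s))))) ≠ leaf ↔ _
      rw [h1, snd_node, fst_node, h2]
      simp [tt]

end Pool.Agent.H79.CP
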