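import Pool.Agent.H79.CP.Defs

set_option autoImplicit false

/-!
# Runs of the machine with a multivalued oracle: soundness and completeness

PROOF. Induction on `i` with `cstep_congr` (`Pool.Agent.H88.RO.Machine`) and
`Function.iterate_succ_apply`.  For `exists_H`: the list is `node (τ (dec (fst (snd s)))) H'`.
-/

namespace Pool.Agent.H79.CP

open Pool.Agent.H88.RO Pool.Agent.H88.RO.Tr Pool.Agent.H65.TS Pool.Agent.H65.NU Pool.Agent.H69.NL
open Pool.Agent.H18.CB
open Pool.Agent.H93.BB (Orc zero)

/-- if all correct answers are those of the oracle `A`, a correct run is the run with `A` -/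
theorem mst_sound {Ω : Tr → Orc} {V : Tr → Tr → Prop} {K : ℕ} {A : Orc}
    (hA : ∀ h x, V h x → Ω h (dec x) = A (dec x)) :
    ∀ (i : ℕ) (H s : Tr), mok Ω V K i H s → mst Ω K i H s = (cstep A K)^[i] s := by
  intro i
  induction i with
  | zero => intro H s _; rfl
  | succ i ih =>
    intro H s h
    obtain ⟨h1, h2⟩ := h
    have h3 : cstep (Ω (fst H)) K s = cstep A K s := cstep_congr s fun _ => hA _ _ h1
    rw [Function.iterate_succ_apply]
    change mst Ω K i (snd H) (cstep (Ω (fst H)) K s) = _
    rw [ih _ _ h2, h3]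

/-- every selection `τ` of correct answers gives a run -/
theorem exists_H {Ω : Tr → Orc} {V : Tr → Tr → Prop} {K B : ℕ} {τ : List Bool → Tr}
    (hτ : ∀ x, V (τ (dec x)) x) (hB : ∀ q, size (τ q) ≤ B) {A : Orc}
    (hA : ∀ q, A q = Ω (τ q) q) :
    ∀ (i : ℕ) (s : Tr), ∃ H : Tr, size H ≤ i * (B + 1) + 1 ∧ mok Ω V K i H s ∧
      mst Ω K i H s = (cstep A K)^[i] s := by
  intro i
  induction i with
  | zero =>
    intro s
    refine ⟨leaf, ?_, trivial, rfl⟩
    simp only [size]
    omega
  | succ i ih =>
    intro s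
    obtain ⟨H', h1, h2, h3⟩ := ih (cstep A K s)
    have h4 : cstep (Ω (τ (dec (fst (snd s))))) K s = cstep A K s :=
      cstep_congr s fun _ => (hA _).symm
    refine ⟨node (τ (dec (fst (snd s)))) H', ?_, ⟨hτ _, ?_⟩, ?_⟩
    · have h5 := hB (dec (fst (snd s)))
      simp only [size]
      rw [Nat.succ_mul]
      omega
    · change mok Ω V K i H' (cstep (Ω (τ (dec (fst (snd s))))) K s)
      rw [h4]
      exact h2
    · rw [Function.iterate_succ_apply]
      change mst Ω K i H' (cstep (Ω (τ (dec (fst (snd s))))) K s) = _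
      rw [h4]
      exact h3

end Pool.Agent.H79.CP
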