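import Pool.Agent.H79.CP.QDef
import Pool.Agent.H79.CP.MSC
import Pool.Agent.H79.CP.Hist
import Pool.Agent.H18.CB.Loc

set_option autoImplicit false

/-!
# Soundness and completeness of the relation

PROOF of `Fails.sound`: let `A q = decide (q.length ≤ L) && tor y q`, `L = F.L n`.  By `mst_sound` with `join A zero`
(a correct history of `q`, `|q| ≤ L`, gives the output `y.getD (val (pad L q)) false = tor y q`, because
`val (pad L q) = val q`, see `val_zeros` in `Pool.Agent.H18.CB.CT`, and `|pad L q| = L`) the last state is
that of `U (join A zero) (code R.c) (node (enc z) (enc v)) K`, `K = R.clk z v` (unfold `U`), which is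
`node leaf (chT .. (join A zero) (node (enc z) (enc v)))` by `R.hc` and `U_eq` (`size_enc_le`, `poly_mono`).  So the test
with `A` fails at `v`, and by `Ok_congr` (`size (code F.cU) + 4 ≤ F.D` by `Frm.D`) the test with `tor y`.
PROOF of `exists_Fails`: `exists_H` with `τ' q' = τ (pad L q)` if `q' = false :: q` and `leaf` otherwise, and
`A' = join A zero`, `A q = hor P L (τ (pad L q)) q`.
PROOF of `exists_sol`: `B` from `exists_valid T`; choose `τ x` with `Valid T P x (τ x)`, `P = decode u`
(`size (decode u) ≤ 2 * u.length + 1` or any polynomial bound; for instance by `FP.size_bound` of `decodeT`, or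
directly: `rstep` adds at most 2 to the size).  If the test with `A` fails at `v` then `v = []` or
`v.length = nA F.D z + 1` (`Ok_of_length`), which is at most a polynomial in `n` (`exists_zB F.ha.polyTime`, see
`Frm.exists_q` in `Pool.Agent.H18.CB.QP`), and `exists_Fails` gives `H`; the solution is `pr v (rpn H)` of length
`2 * v.length + 1 + size H` (`pr_length`; the length of `rpn H` is `size H`, see `rpn_len` in
`Pool.Agent.H18.CB.CT`; `decode (rpn H) = H` by `decode_rpn`).  The polynomial `q` is in terms of
`(pr (ones n) u).length = 2 * n + 1 + u.length`.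
-/

namespace Pool.Agent.H79.CP

open Pool.Agent.H88.RO Pool.Agent.H88.RO.Tr Pool.Agent.H65.TS Pool.Agent.H65.NU Pool.Agent.H69.NL
open Pool.Agent.H18.CB
open Pool.Agent.H93.BB (Orc zero)

variable {F : H18.CB.Frm}

private theorem core (R : Tst F) (O : Orc) (z v : List Bool) :
    snd (out (R.clk z v) ((cstep O (R.clk z v))^[R.clk z v] (R.s0 z v))) =
      Pool.Agent.H93.BB.Tab.chT F.D (code F.cU) O (node (enc z) (enc v)) := by
  obtain ⟨t, ht, he⟩ := R.hc O (node (enc z) (enc v))
  have h1 : t ≤ R.q.eval (4 * z.length + 4 * v.length + 10) := by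
    refine ht.trans (poly_mono _ ?_)
    have h2 := size_enc_le z
    have h3 := size_enc_le v
    simp only [size]
    omega
  have h2 : (size (code R.c) + 10) * t + 10 ≤ R.clk z v :=
    Nat.add_le_add_right (Nat.mul_le_mul_left _ h1) _
  have h3 := U_eq he h2
  unfold U at h3
  unfold Tst.s0
  rw [h3, snd_node]

private theorem val_zeros (q : List Bool) (k : ℕ) :
    Pool.Agent.H93.BB.Tab.val (q ++ List.replicate k false) = Pool.Agent.H93.BB.Tab.val q := by
  induction q with
  | nil =>
    rw [List.nil_append]
    induction k with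
    | zero => rfl
    | succ k ih =>
      have h0 : Pool.Agent.H93.BB.Tab.val (List.replicate k false) = 0 := ih
      show (if false = true then 1 else 0) +
        2 * Pool.Agent.H93.BB.Tab.val (List.replicate k false) = 0
      rw [h0]; rfl
  | cons b q ih =>
    rw [List.cons_append, Pool.Agent.H93.BB.Tab.val, Pool.Agent.H93.BB.Tab.val, ih]

private theorem hDF (F : H18.CB.Frm) : size (code F.cU) + 4 ≤ F.D := by
  unfold Frm.D
  omega

theorem Fails.sound {T : TFNP zero} {R : Tst F} {P : Tr} {n : ℕ} {v : List Bool} {H : Tr}
    (h : Fails T R P n v H) {y : List Bool} (hy : Easy T P (F.L n) y) :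
    ¬ Ok F.D F.cU (tor y) (zS F.a n) v := by
  obtain ⟨h1, h2⟩ := h
  obtain ⟨A, hAd⟩ : ∃ A : Orc, A = fun q => decide (q.length ≤ F.L n) && tor y q := ⟨_, rfl⟩
  have hA : ∀ h x, hok T P (F.L n) h x → mor P (F.L n) h (dec x) = join A zero (dec x) := by
    intro h x hx
    unfold mor
    rcases hd : dec x with _ | ⟨b, w⟩
    · rfl
    · cases b with
      | true => rfl
      | false =>
        show hor P (F.L n) h w = A w
        rw [hAd]
        unfold hor
        by_cases hw : w.length ≤ F.L n
        · have h3 := hx w hd hw
          have h4 : (pad (F.L n) w).length = F.L n := by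
            rw [pad, List.length_append, List.length_replicate]
            omega
          have h5 := hy _ h4 h h3
          rw [h5]
          unfold tor
          rw [pad, val_zeros]
        · simp [hw]
  have h3 := mst_sound (K := R.clk (zS F.a n) v) hA _ H _ h1
  rw [h3, core] at h2
  have h4 : ¬ Ok F.D F.cU A (zS F.a n) v := h2
  rw [Ok_congr (hDF F) (A' := tor y) (fun q hq => ?_) v] at h4
  · exact h4
  · rw [hAd]
    have h5 : q.length ≤ F.L n := hq
    simp [h5]

theorem exists_Fails {T : TFNP zero} (R : Tst F) {P : Tr} {n B : ℕ} {τ : List Bool → Tr}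
    (hτ : ∀ x, Valid T P x (τ x)) (hB : ∀ x, size (τ x) ≤ B) {v : List Bool}
    (h : ¬ Ok F.D F.cU (fun q => hor P (F.L n) (τ (pad (F.L n) q)) q) (zS F.a n) v) :
    ∃ H : Tr, size H ≤ R.clk (zS F.a n) v * (B + 1) + 1 ∧ Fails T R P n v H := by
  obtain ⟨τ', h0⟩ : ∃ τ' : List Bool → Tr, τ' = fun q' => match q' with
    | false :: q => τ (pad (F.L n) q)
    | _ => leaf := ⟨_, rfl⟩
  have hB1 : 1 ≤ B := by
    have h1 := hB []
    have h2 : 1 ≤ size (τ []) := by
      cases τ [] <;> simp only [size] <;> omega
    omega
  obtain ⟨H, hs, h1, h2⟩ := exists_H (Ω := mor P (F.L n)) (V := hok T P (F.L n))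
    (K := R.clk (zS F.a n) v) (B := B) (τ := τ')
    (by
      intro x q hq _
      rw [h0, hq]
      exact hτ _)
    (by
      intro q
      rw [h0]
      rcases q with _ | ⟨b, w⟩
      · exact hB1
      · cases b with
        | true => exact hB1
        | false => exact hB _)
    (A := join (fun q => hor P (F.L n) (τ (pad (F.L n) q)) q) zero)
    (by
      intro q
      rw [h0]
      rcases q with _ | ⟨b, w⟩
      · rfl
      · cases b with
        | true => rfl
        | false => rfl)
    (R.clk (zS F.a n) v) (R.s0 (zS F.a n) v)
  refine ⟨H, hs, h1, ?_⟩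
  rw [h2, core]
  exact h

private theorem size_decode_le (u : List Bool) : size (decode u) ≤ 4 * u.length + 1 := by
  have key : ∀ (u : List Bool) (st : Tr), size (u.foldl rstep st) ≤ size st + 4 * u.length := by
    intro u
    induction u with
    | nil => intro st; simp
    | cons b u ih =>
      intro st
      rw [List.foldl_cons, List.length_cons]
      have h1 := ih (rstep st b)
      have h2 : size (rstep st b) ≤ size st + 4 := by
        unfold rstep
        cases b with
        | false =>
          simp only [Bool.false_eq_true, if_false, size]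
          omega
        | true =>
          simp only [if_true]
          cases st with
          | leaf => simp [size]
          | node a c =>
            cases c with
            | leaf => simp [size]
            | node d e =>
              simp only [fst_node, snd_node, size]
              omega
      omega
  have h1 := key u leaf
  have h2 := size_fst_le (u.foldl rstep leaf)
  unfold decode
  have h3 : size leaf = 1 := rfl
  omega

/-- if an instance `(1^n, u)` has no short solution, then the circuit described by `u` gives (for any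
selection of the solutions at the search gates) a correct tableau -/
theorem exists_sol (T : TFNP zero) (R : Tst F) : ∃ q : Polynomial ℕ, ∀ (n : ℕ) (u : List Bool),
    (∀ w : List Bool, ¬ (w.length ≤ q.eval (pr (ones n) u).length ∧
      Qr T R (pr (ones n) u) w = true)) →
    ∃ A : Orc, ∀ v : List Bool, Ok F.D F.cU A (zS F.a n) v := by
  obtain ⟨B, hB⟩ := exists_valid T
  obtain ⟨Pz, hPz⟩ := exists_zB F.ha.polyTime
  obtain ⟨V, hVd⟩ : ∃ V : Polynomial ℕ, V = Polynomial.C F.D * (Pz + 1) + 1 := ⟨_, rfl⟩
  refine ⟨2 * V + 1 + ((Polynomial.C (size (code R.c) + 10) * R.q.comp (4 * Pz + 4 * V + 10) + 10) *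
    (B.comp (4 * Polynomial.X + 1) + 1) + 1), fun n u hw => ?_⟩
  choose τ hτ1 hτ2 using fun x : List Bool => hB (decode u) x
  refine ⟨fun q => hor (decode u) (F.L n) (τ (pad (F.L n) q)) q, fun v => ?_⟩
  by_contra hv
  obtain ⟨H, hs, hF⟩ := exists_Fails R hτ1 hτ2 hv
  have hN : (pr (ones n) u).length = 2 * n + 1 + u.length := by
    rw [pr_length, ones_length]
  obtain ⟨N, hNd⟩ : ∃ N, N = (pr (ones n) u).length := ⟨_, rfl⟩
  have hz : (zS F.a n).length ≤ Pz.eval N := (hPz n).trans (poly_mono _ (by omega))
  have hvl : v.length ≤ V.eval N := by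
    rw [hVd]
    simp only [Polynomial.eval_add, Polynomial.eval_mul, Polynomial.eval_C, Polynomial.eval_one]
    by_cases h0 : v = []
    · rw [h0]
      exact Nat.zero_le _
    · have h1 : v.length = nA F.D (zS F.a n) + 1 := by
        by_contra hcon
        exact hv (Ok_of_length h0 hcon)
      rw [h1]
      unfold nA
      have := Nat.mul_le_mul_left F.D (Nat.add_le_add_right hz 1)
      omega
  have hclk : R.clk (zS F.a n) v ≤ (size (code R.c) + 10) *
      R.q.eval (4 * Pz.eval N + 4 * V.eval N + 10) + 10 := by
    unfold Tst.clk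
    exact Nat.add_le_add_right (Nat.mul_le_mul_left _ (poly_mono _ (by omega))) _
  have hsz : size (decode u) ≤ 4 * N + 1 := by
    have := size_decode_le u
    omega
  have hBl : B.eval (size (decode u)) + 1 ≤ B.eval (4 * N + 1) + 1 :=
    Nat.add_le_add_right (poly_mono _ hsz) _
  have hH : size H ≤ ((size (code R.c) + 10) *
      R.q.eval (4 * Pz.eval N + 4 * V.eval N + 10) + 10) * (B.eval (4 * N + 1) + 1) + 1 :=
    hs.trans (Nat.add_le_add_right (Nat.mul_le_mul hclk hBl) _)
  refine hw (pr v (rpn H)) ⟨?_, ?_⟩
  · rw [pr_length, rpn_length, ← hNd]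
    simp only [Polynomial.eval_add, Polynomial.eval_mul, Polynomial.eval_C, Polynomial.eval_one,
      Polynomial.eval_comp, Polynomial.eval_ofNat, Polynomial.eval_X]
    omega
  · rw [Qr_iff, decode_rpn]
    exact hF

end Pool.Agent.H79.CP
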