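import Pool.Agent.H79.CP.QF
import Pool.Agent.H79.CP.QS
import Pool.Agent.H18.CB.Main

set_option autoImplicit false

/-!
# The main theorem on circuits with search gates

PROOF. As `Frm.main` in `Pool.Agent.H18.CB.Main` with `D : Dat zero := ⟨T, Qr T R, X, q, F.a, dP, ..⟩`, `q` from
`exists_sol T R`, `R` from `exists_Tst F`.  Changes:
* instead of `hB` (`m ≥ B`): for all marked `n` with `B ≤ lam (F.a n)` there is a solution `y` of
  `1^(F.M n)` such that, if its length is `2 ^ F.L n`, some `u` of length at most `n` is a description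
  (`Easy T (decode u) (F.L n) y`); so `c1 = max (max c Kk) B`;
* in `htot0`: `D.sol_of_not_core` gives a solution `w` of `(1^n, u)`; by `Qr_iff'`, `un1_pr`, `un2_pr` this
  means `Fails T R (decode u) n (un1 w) (decode (un2 w))`, `Fails.sound` gives a position where `tor y` fails;
* in `hno`: if `(1^n, u)` has no solution, `exists_sol` gives an oracle with a correct tableau, then
  `Ok_sound` as before.
-/

namespace Pool.Agent.H79.CP

open Pool.Agent.H88.RO Pool.Agent.H88.RO.Tr Pool.Agent.H65.TS Pool.Agent.H65.NU Pool.Agent.H69.NL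
open Pool.Agent.H18.CB
open Pool.Agent.H93.BB (Orc zero)
open Pool.Agent.H40.EL (lam)

/-- A complete total NP search problem `T` gives a total NP search problem with solutions which have
no short descriptions by circuits with search gates for `T`. -/
theorem mainT (F : H18.CB.Frm) (T : TFNP zero) (hT : T.IsComplete) :
    ∃ S : TFNP zero, ∀ B : ℕ, ∃ n, dP n = true ∧ B ≤ lam (F.a n) ∧ ∀ y : List Bool,
      S.IsSol (ones (F.M n)) y → y.length = 2 ^ F.L n ∧
        ∀ u : List Bool, u.length ≤ n → ¬ Easy T (decode u) (F.L n) y := by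
  classical
  obtain ⟨R⟩ := exists_Tst F
  obtain ⟨q, hq⟩ := exists_sol T R
  let D : Dat zero := ⟨T, Qr T R, Polynomial.X, q, F.a, dP, polyTime_Qr T R, F.ha.polyTime,
    polyTime_dP⟩
  have hDa : D.a = F.a := rfl
  have hDd : D.d = dP := rfl
  have hDp : ∀ n, D.p.eval n = n := fun n => Polynomial.eval_X
  have hcode : size (code F.cU) + 4 ≤ F.D := by
    unfold H18.CB.Frm.D
    omega
  -- solutions of `Sol` give failing positions
  have hSol' : ∀ (n : ℕ) (u w y : List Bool), D.Sol n u w → Easy T (decode u) (F.L n) y →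
      ∃ v, ¬ Ok F.D F.cU (tor y) (zS F.a n) v := by
    intro n u w y h hy
    have h1 : Qr T R (pr (ones n) u) w = true := h.2
    rw [Qr_iff', un1_pr, un2_pr, ones_length] at h1
    exact ⟨_, h1.sound hy⟩
  obtain ⟨V, hV, hVs⟩ := D.exists_V2
  obtain ⟨e, c, hec⟩ := RU_iff hV (2 * Polynomial.X + 2 + D.T.p) dP F.a
  -- the universal relation at the marked lengths
  have hiff : ∀ n, Cd F.a dP e c n → ((∃ y, RU zero dP (ones n) y = true) → ∃ w, D.Ref2 n w) ∧
      ((∃ w, D.Ref2 n w) → ∃ y : List Bool, y.length ≤ (n + 2) ^ F.a n ∧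
        RU zero dP (ones n) y = true) := by
    intro n hn
    obtain ⟨h1, h2⟩ := hec n hn.1 hn.2.1 hn.2.2 (by
      intro w hw
      obtain ⟨h1, h2, h3, _⟩ := (hVs n w).mp hw
      have h4 := length_le_prs w
      have h5 := length_le_prs (prs w).2
      have h6 := h3.1.trans (poly_mono D.T.p (run_length _ _ _))
      have h7 := N1_le_N2 F.a n
      rw [hDa] at h1 h2 h6
      simp only [Polynomial.eval_add, Polynomial.eval_mul, Polynomial.eval_ofNat,
        Polynomial.eval_X]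
      omega)
    refine ⟨fun h => ?_, fun h => ?_⟩
    · obtain ⟨w, hw⟩ := h1 h
      exact ⟨_, ((hVs n w).mp hw).2.2⟩
    · obtain ⟨w, hw⟩ := h
      refine h2 ⟨List.replicate (N2 F.a n) true ++ false ::
        (List.replicate (N1 F.a n) true ++ false :: w), (hVs n _).mpr ?_⟩
      rw [prs_ones, prs_ones]
      exact ⟨rfl, rfl, hw⟩
  -- the problem `S2` is total
  obtain ⟨Kk, hKk⟩ := F.exists_pack D hDa
  have htot2 : ∀ n, Cd F.a dP e (max c Kk) n → ∃ y : List Bool, y.length = 2 ^ F.L n ∧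
      ((∀ u, Ok F.D F.cU (tor y) (zS F.a n) u) ∨ D.Core n (unpack y)) := by
    intro n hn
    have hcd : Cd F.a dP e c n := ⟨hn.1, hn.2.1, (le_max_left _ _).trans hn.2.2⟩
    by_cases hcore : ∃ w, D.Core n w
    · obtain ⟨w, hw⟩ := hcore
      obtain ⟨y, hy1, hy2⟩ := hKk n w ((le_max_right _ _).trans hn.2.2) hw
      exact ⟨y, hy1, Or.inr (by rw [hy2]; exact hw)⟩
    · push Not at hcore
      obtain ⟨w, hw⟩ := T.total (run zero (blk 1 (key D.d n)) (enc (Zst D.a n)) (N2 D.a n))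
      obtain ⟨y, hy1, hy2⟩ := (hiff n hcd).2 ⟨w, hw, hcore _⟩
      obtain ⟨Y, v, t, hv, he, ht⟩ := F.complete n y hn.1 hy1 hy2
      obtain ⟨y', h1, h2⟩ := Ok_complete F.cU F.C hv he ht
      exact ⟨y', h1, Or.inl h2⟩
  obtain ⟨S2, hS2⟩ := F.exists_S2 D hDa hDd e (max c Kk) htot2
  refine ⟨S2, ?_⟩
  by_contra hcon
  push Not at hcon
  obtain ⟨B, hB⟩ := hcon
  -- the problem `S0` is total at the lengths with large exponents
  set c1 : ℕ := max (max c Kk) B with hc1
  have htot0 : ∀ n, Cd F.a dP e c1 n → ∃ y, D.Core n y := by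
    intro n hn
    have hcd2 : Cd F.a dP e (max c Kk) n := ⟨hn.1, hn.2.1, (le_max_left _ _).trans hn.2.2⟩
    by_contra hcore
    push Not at hcore
    obtain ⟨y, hy, hyL⟩ := hB n hn.1 ((le_max_right _ _).trans hn.2.2)
    obtain ⟨h1, h2⟩ := hS2 n y hcd2 hy
    rcases h2 with h2 | h2
    · obtain ⟨u, hu1, hu2⟩ := hyL h1
      obtain ⟨w, hw⟩ := D.sol_of_not_core hcore u (by rw [hDp]; exact hu1)
      obtain ⟨v, hv⟩ := hSol' n u w y hw hu2
      exact hv (h2 v)
    · exact hcore _ h2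
  obtain ⟨cT, hcT, hcT'⟩ := D.exists_cdT e c1
  obtain ⟨S0, hS0⟩ := D.exists_S0 (Cd F.a dP e c1) cT hcT hcT' htot0
  obtain ⟨i1, i2, Bi, hBi⟩ := run_red (hT S0)
  obtain ⟨K, hK⟩ := poly_le_N2 Bi
  -- the problem `S1` is total
  have hno : ∀ n, Cd2 F.a dP e i1 i2 (max c1 K) n → ∀ u : List Bool, u.length ≤ D.p.eval n →
      ∃ v, D.Sol n u v := by
    intro n hn u _
    have hcd : Cd F.a dP e c1 n := ⟨hn.1.1, hn.1.2.1, (le_max_left _ _).trans hn.1.2.2⟩
    have hcdc : Cd F.a dP e c n := ⟨hcd.1, hcd.2.1, by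
      have h1 := hcd.2.2
      omega⟩
    by_contra hno
    push Not at hno
    obtain ⟨A, hok⟩ := hq n u (fun w hw => hno w hw)
    obtain ⟨Y, v, t, hv, he⟩ := Ok_sound hcode hok
    obtain ⟨w, hw1, hw2⟩ := (hiff n hcdc).1 (F.sound n Y v t hn.1.1 hv he)
    have e1 : blk 1 (key D.d n) = i1 := hn.2.1
    have e2 : blk 2 (key D.d n) = i2 := hn.2.2
    rw [e1] at hw1
    rw [e2] at hw2
    apply hw2
    apply hS0 n _ hcd
    refine hBi _ _ ?_ _ hw1
    refine le_trans (poly_mono Bi (n := 2 * N1 D.a n) ?_) (hK D.a n ?_)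
    · rw [Zst_length]
      have := lt_N1 D.a n
      omega
    · exact (le_max_right _ _).trans hn.1.2.2
  obtain ⟨cT', hcT1, hcT2⟩ := D.exists_cd2T e i1 i2 (max c1 K)
  obtain ⟨S1, hS1⟩ := D.exists_S1 (Cd2 F.a dP e i1 i2 (max c1 K)) cT' hcT1 hcT2
    (fun n hn => hno n hn)
  obtain ⟨j1, j2, K', hK'⟩ := D.not_core (hT S1) hS1
  obtain ⟨n, hn1, hn2, hn3⟩ := exists_large F.ha marks_dP (Pool.Agent.H69.NL.mk [e, i1, i2, j1, j2])
    (max (max c1 K) K')
  have hcd2 : Cd2 F.a dP e i1 i2 (max c1 K) n := by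
    refine ⟨⟨hn1, by rw [hn2, blk_zero], (le_max_left _ _).trans hn3⟩, ?_, ?_⟩
    · rw [hn2, blk_succ, blk_zero]
    · rw [hn2, blk_succ, blk_succ, blk_zero]
  have hcd : Cd F.a dP e c1 n :=
    ⟨hcd2.1.1, hcd2.1.2.1, (le_max_left _ _).trans hcd2.1.2.2⟩
  obtain ⟨y, hy⟩ := htot0 n hcd
  refine hK' n hcd2 ((le_max_right _ _).trans hn3) ?_ ?_ y hy
  · show blk 3 (key dP n) = j1
    rw [hn2, blk_succ, blk_succ, blk_succ, blk_zero]
  · show blk 4 (key dP n) = j2
    rw [hn2, blk_succ, blk_succ, blk_succ, blk_succ, blk_zero]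

end Pool.Agent.H79.CP
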