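import Pool.Agent.H79.CP.EvF

set_option autoImplicit false

/-!
# The oracles given by circuits with search gates are computable in polynomial time

The parameter is `θ = node (node P l) h`: description, number of inputs in unary, history.

PROOF. `padT (w q) = appT (norm q) (dropU q (ulen w))` as in `Pool.Agent.H18.CB.CorF` (`padT_eq`, copy the
private lemmas): `padT w q = enc (pad (len w) (dec q))`.  Length test: `dropU l q` is a leaf iff
`len q ≤ len l` (`dropU_eq_leaf`), `length_dec`.  The join and the case distinction on the first bit of
the query: see the proof of `FPO_cor` in `Pool.Agent.H18.CB.CorF`.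
`dec x = false :: q` iff `x = node leaf b` with `dec b = q`.
-/

namespace Pool.Agent.H79.CP

open Pool.Agent.H88.RO Pool.Agent.H88.RO.Tr Pool.Agent.H65.TS Pool.Agent.H65.NU Pool.Agent.H69.NL
open Pool.Agent.H18.CB
open Pool.Agent.H93.BB (Orc zero)

/-- the multivalued oracle with the history `h`, joined with the trivial oracle -/
def mor (P : Tr) (L : ℕ) (h : Tr) : Orc := join (hor P L h) zero

private theorem snd_iter_num (n m : ℕ) : snd^[n] (num m) = num (m - n) := by
  induction n generalizing m with
  | zero => simp
  | succ n ih =>
    rw [Function.iterate_succ_apply]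
    cases m with
    | zero =>
      have e : snd (num 0) = num 0 := rfl
      rw [e, ih]
      congr 1
      omega
    | succ m =>
      have e : snd (num (m + 1)) = num m := rfl
      rw [e, ih]
      congr 1
      omega

private theorem num_eq_enc (m : ℕ) : num m = enc (List.replicate m false) := by
  induction m with
  | zero => rfl
  | succ m ih =>
    have e : num (m + 1) = node leaf (num m) := rfl
    rw [e, ih]
    rfl

/-- the padded query -/
private def padT (w q : Tr) : Tr := appT (norm q) (dropU q (ulen w))

private theorem padT_eq (w q : Tr) : padT w q = enc (pad (len w) (dec q)) := by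
  rw [padT, norm_eq, ulen_eq, dropU, snd_iter_num, num_eq_enc, appT_enc, pad, length_dec]

private theorem FP_padT {F G : Tr → Tr} (hF : FP zero F) (hG : FP zero G) :
    FP zero (fun v => padT (F v) (G v)) :=
  FP.appT' (FP.norm' hG) (FP.dropU' hG (FP.ulen' hF))

/-- the trivial problem -/
private noncomputable def trivT : TFNP zero where
  R _ _ := true
  p := 0
  polyTime := polyTimeRel_of_FP (F := fun _ => tt) (FP.const' _) (fun _ _ => by simp [tt])
  total _ := ⟨[], by simp⟩

theorem FPO_mor : FPO zero (fun θ => mor (fst (fst θ)) (len (snd (fst θ))) (snd θ)) := by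
  obtain ⟨oT, -, ho, -, ho2, -⟩ := exists_evT trivT
  intro F G hF hG
  have h : (fun v => bit (mor (fst (fst (F v))) (len (snd (fst (F v)))) (snd (F v)) (dec (G v)))) =
      fun v => cs (G v) leaf (cs (fst (G v)) (cs (dropU (snd (fst (F v))) (snd (G v)))
        (oT (fst (fst (F v))) (padT (snd (fst (F v))) (snd (G v))) (snd (F v))) leaf) leaf) := by
    funext v
    cases hq : G v with
    | leaf => simp [dec, mor, join, bit]
    | node a b =>
      rw [cs_neg _ _ (by simp), fst_node, snd_node]
      by_cases ha : a = leaf
      · subst ha
        rw [cs_leaf]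
        have e : mor (fst (fst (F v))) (len (snd (fst (F v)))) (snd (F v)) (dec (node leaf b)) =
            hor (fst (fst (F v))) (len (snd (fst (F v)))) (snd (F v)) (dec b) := by
          simp [dec, join, mor]
        rw [e, hor, length_dec]
        by_cases h1 : dropU (snd (fst (F v))) b = leaf
        · rw [cs_pos _ _ h1, ho2, padT_eq, dec_enc]
          rw [dropU_eq_leaf] at h1
          rw [decide_eq_true h1, Bool.true_and]
        · rw [cs_neg _ _ h1]
          rw [dropU_eq_leaf] at h1
          rw [decide_eq_false h1, Bool.false_and]
          rfl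
      · rw [cs_neg _ _ ha]
        have e : mor (fst (fst (F v))) (len (snd (fst (F v)))) (snd (F v)) (dec (node a b)) =
            zero (dec b) := by
          simp [dec, ha, join, mor]
        rw [e]
        rfl
  rw [h]
  exact FP.cs' hG FP.leaf' (FP.cs' (FP.fst' hG) (FP.cs' (FP.dropU' (FP.snd' (FP.fst' hF)) (FP.snd' hG))
    (ho (FP.fst' (FP.fst' hF)) (FP_padT (FP.snd' (FP.fst' hF)) (FP.snd' hG)) (FP.snd' hF)) FP.leaf') FP.leaf')

/-- a program for `hok` -/
theorem exists_hokT (T : TFNP zero) : ∃ kT : Tr → Tr, FP zero kT ∧
    ∀ P l h x, kT (node (node (node P l) h) x) ≠ leaf ↔ hok T P (len l) h x := by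
  obtain ⟨-, vT, -, hv, -, hv2⟩ := exists_evT T
  refine ⟨fun v => cs (snd v) tt (cs (fst (snd v))
    (cs (dropU (snd (fst (fst v))) (snd (snd v)))
      (vT (fst (fst (fst v))) (padT (snd (fst (fst v))) (snd (snd v))) (snd (fst v))) tt) tt), ?_, ?_⟩
  · have h1 : FP zero (fun v : Tr => fst v) := FP.fst' FP.id'
    have h2 : FP zero (fun v : Tr => snd v) := FP.snd' FP.id'
    exact FP.cs' h2 (FP.const' _) (FP.cs' (FP.fst' h2) (FP.cs' (FP.dropU' (FP.snd' (FP.fst' h1)) (FP.snd' h2))
      (hv (FP.fst' (FP.fst' h1)) (FP_padT (FP.snd' (FP.fst' h1)) (FP.snd' h2)) (FP.snd' h1)) (FP.const' _))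
      (FP.const' _))
  · intro P l h x
    simp only [fst_node, snd_node]
    unfold hok
    cases x with
    | leaf =>
      rw [cs_leaf]
      simp [tt, dec]
    | node a b =>
      rw [cs_neg _ _ (by simp), fst_node, snd_node]
      by_cases ha : a = leaf
      · subst ha
        rw [cs_leaf]
        have h3 : dec (node leaf b) = false :: dec b := by simp [dec]
        rw [h3]
        by_cases h4 : dropU l b = leaf
        · rw [cs_pos _ _ h4, hv2, padT_eq, dec_enc]
          rw [dropU_eq_leaf] at h4
          constructor
          · intro h5 q hq _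
            rw [List.cons.injEq] at hq
            rw [← hq.2]
            exact h5
          · intro h5
            exact h5 (dec b) rfl (by rw [length_dec]; exact h4)
        · rw [cs_neg _ _ h4]
          rw [dropU_eq_leaf] at h4
          constructor
          · intro _ q hq hl
            rw [List.cons.injEq] at hq
            rw [← hq.2, length_dec] at hl
            exact absurd hl h4
          · intro _
            simp [tt]
      · rw [cs_neg _ _ ha]
        have h3 : dec (node a b) = true :: dec b := by simp [dec, ha]
        rw [h3]
        simp [tt]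

end Pool.Agent.H79.CP
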