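import Pool.Agent.H79.CP.OrcF
import Pool.Agent.H79.CP.MRun
import Pool.Agent.H18.CB.ZT

set_option autoImplicit false

/-!
# The relation: find a position where a circuit with search gates fails the test

A solution of the instance `(1^n, u)` is a pair `(v, H)`: a position `v` and a list `H` of correct
histories of the circuit described by `u` for the queries which the test at the position `v` asks,
such that the test fails with these answers.

PROOF of `polyTime_Qr`: `polyTimeRel_of_FP`; all arguments of `Fails` are computable:
`un1T`, `un2T`, `decodeT`, `z` by `exists_zT F.ha.polyTime`, `L` in unary from `z` (`mulU`, `addU`, see the proof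
of `Frm.polyTime_Q` in `Pool.Agent.H18.CB.QP`), the clock by `exists_polyT` of the polynomial
`C (size (code R.c) + 10) * R.q + 10` at a tree of length `4 * |z| + 4 * |v| + 10` (`addU`, `mulU`), then
`exists_mT FPO_mor` and `exists_hokT` with `e = node P l`; the function `out`: see the proof of `FP.UΩ` in
`Pool.Agent.H65.TS.Par` (`sizeT_eq_leaf`).
-/

namespace Pool.Agent.H79.CP

open Pool.Agent.H88.RO Pool.Agent.H88.RO.Tr Pool.Agent.H65.TS Pool.Agent.H65.NU Pool.Agent.H69.NL
open Pool.Agent.H18.CB
open Pool.Agent.H93.BB (Orc zero)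
open Pool.Agent.H93.BB.Tab (chT UFP_chT)

/-- a uniform program for the local test of tableaux, with a bound for its time -/
structure Tst (F : H18.CB.Frm) where
  /-- the program -/
  c : Prog
  /-- the bound -/
  q : Polynomial ℕ
  hc : ∀ (O : Orc) (v : Tr), ∃ t ≤ q.eval (size v), Eval O c v (chT F.D (code F.cU) O v) t

theorem exists_Tst (F : H18.CB.Frm) : Nonempty (Tst F) := by
  obtain ⟨c, q, hc⟩ := UFP_chT F.D (code F.cU)
  exact ⟨⟨c, q, hc⟩⟩

variable {F : H18.CB.Frm}

/-- the clock for the test at the position `v` -/
def Tst.clk (R : Tst F) (z v : List Bool) : ℕ :=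
  (size (code R.c) + 10) * R.q.eval (4 * z.length + 4 * v.length + 10) + 10

/-- the first state of the test at the position `v` -/
def Tst.s0 (R : Tst F) (z v : List Bool) : Tr :=
  node (code R.c) (node (node (enc z) (enc v)) leaf)

/-- `H` is a list of correct histories for the queries of the test at `v`, and the test fails -/
def Fails (T : TFNP zero) (R : Tst F) (P : Tr) (n : ℕ) (v : List Bool) (H : Tr) : Prop :=
  mok (mor P (F.L n)) (hok T P (F.L n)) (R.clk (zS F.a n) v) (R.clk (zS F.a n) v) H
    (R.s0 (zS F.a n) v) ∧
  snd (out (R.clk (zS F.a n) v) (mst (mor P (F.L n)) (R.clk (zS F.a n) v)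
    (R.clk (zS F.a n) v) H (R.s0 (zS F.a n) v))) ≠ leaf

open Classical in
/-- the relation -/
noncomputable def Qr (T : TFNP zero) (R : Tst F) (x w : List Bool) : Bool :=
  decide (Fails T R (decode (un2 x)) (un1 x).length (un1 w) (decode (un2 w)))

theorem Qr_iff' (T : TFNP zero) (R : Tst F) (x w : List Bool) : Qr T R x w = true ↔
    Fails T R (decode (un2 x)) (un1 x).length (un1 w) (decode (un2 w)) := by
  unfold Qr
  exact @decide_eq_true_iff _ (Classical.propDecidable _)

theorem Qr_iff (T : TFNP zero) (R : Tst F) (n : ℕ) (u v w : List Bool) :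
    Qr T R (pr (ones n) u) (pr v w) = true ↔ Fails T R (decode u) n v (decode w) := by
  rw [Qr_iff', un1_pr, un2_pr, un1_pr, un2_pr, ones_length]

end Pool.Agent.H79.CP
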