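import Pool.Agent.H79.CP.QDef

set_option autoImplicit false

/-!
# The relation is decidable in polynomial time

PROOF: see `QDef`.
-/

namespace Pool.Agent.H79.CP

open Pool.Agent.H88.RO Pool.Agent.H88.RO.Tr Pool.Agent.H65.TS Pool.Agent.H65.NU Pool.Agent.H69.NL
open Pool.Agent.H18.CB
open Pool.Agent.H93.BB (Orc zero)

variable {F : H18.CB.Frm}

private theorem FP_out : FP zero (fun v => out (len (fst v)) (snd v)) := by
  have h1 : (fun v => out (len (fst v)) (snd v)) = fun v =>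
      if sizeT (snd v) (fst v) = leaf then
        (if snd v = leaf then leaf else if fst (snd v) = leaf then
        (if snd (snd (snd v)) = leaf then node leaf (fst (snd (snd v))) else leaf) else leaf)
      else leaf := by
    funext v
    simp only [out, sizeT_eq_leaf]
  rw [h1]
  refine FP.ite' (FP.sizeT' (FP.snd' FP.id') (FP.fst' FP.id')) ?_ FP.leaf'
  (repeat (first | with_reducible exact FP.id' | assumption | with_reducible apply FP.fst' | with_reducible apply FP.snd' | with_reducible apply FP.node' | with_reducible apply FP.query' | with_reducible apply FP.ite' | with_reducible exact FP.const' _))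

private theorem cs_ne_leaf {p b : Tr} : cs p leaf b ≠ leaf ↔ p ≠ leaf ∧ b ≠ leaf := by
  by_cases hp : p = leaf
  · rw [cs_pos _ _ hp]
    exact ⟨fun h => absurd rfl h, fun h => absurd hp h.1⟩
  · rw [cs_neg _ _ hp]
    exact ⟨fun h => ⟨hp, h⟩, fun h => h.2⟩

theorem polyTime_Qr (T : TFNP zero) (R : Tst F) : PolyTimeRel zero (Qr T R) := by
  obtain ⟨zT, hz1, hz2⟩ := exists_zT F.ha.polyTime
  obtain ⟨kT, hk1, hk2⟩ := exists_hokT T
  obtain ⟨M, hM1, hM2⟩ := exists_mT
    (Ω := fun θ => mor (fst (fst θ)) (len (snd (fst θ))) (snd θ)) FPO_mor hk1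
  obtain ⟨PT, hP1, hP2⟩ := exists_polyT R.q
  obtain ⟨Zf, hZf⟩ : ∃ Zf : Tr → Tr, Zf = fun v => zT (un1T (fst v)) := ⟨_, rfl⟩
  obtain ⟨Yf, hYf⟩ : ∃ Yf : Tr → Tr, Yf = fun v => un1T (snd v) := ⟨_, rfl⟩
  obtain ⟨Pf, hPf⟩ : ∃ Pf : Tr → Tr, Pf = fun v => decodeT (un2T (fst v)) := ⟨_, rfl⟩
  obtain ⟨Lf, hLf⟩ : ∃ Lf : Tr → Tr, Lf = fun v =>
    addU (num 10) (mulU (num 2) (mulU (num F.D) (node leaf (Zf v)))) := ⟨_, rfl⟩
  obtain ⟨Hf, hHf⟩ : ∃ Hf : Tr → Tr, Hf = fun v => decodeT (un2T (snd v)) := ⟨_, rfl⟩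
  obtain ⟨Kf, hKf⟩ : ∃ Kf : Tr → Tr, Kf = fun v => addU (mulU (num (size (code R.c) + 10))
    (PT (addU (addU (mulU (num 4) (Zf v)) (mulU (num 4) (Yf v))) (num 10)))) (num 10) := ⟨_, rfl⟩
  obtain ⟨Sf, hSf⟩ : ∃ Sf : Tr → Tr, Sf = fun v =>
    node (code R.c) (node (node (Zf v) (Yf v)) leaf) := ⟨_, rfl⟩
  have cZ : FP zero Zf := by
    rw [hZf]
    exact hz1 (FP.un1T' (FP.fst' FP.id'))
  have cY : FP zero Yf := by
    rw [hYf]
    exact FP.un1T' (FP.snd' FP.id')
  have cP : FP zero Pf := by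
    rw [hPf]
    exact FP.decodeT' (FP.un2T' (FP.fst' FP.id'))
  have cL : FP zero Lf := by
    rw [hLf]
    exact FP.addU' (FP.const' _) (FP.mulU' (FP.const' _) (FP.mulU' (FP.const' _)
      (FP.node' FP.leaf' cZ)))
  have cH : FP zero Hf := by
    rw [hHf]
    exact FP.decodeT' (FP.un2T' (FP.snd' FP.id'))
  have cK : FP zero Kf := by
    rw [hKf]
    exact FP.addU' (FP.mulU' (FP.const' _) (hP2 zero _ (FP.addU' (FP.addU'
      (FP.mulU' (FP.const' _) cZ) (FP.mulU' (FP.const' _) cY)) (FP.const' _)))) (FP.const' _)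
  have cS : FP zero Sf := by
    rw [hSf]
    exact FP.node' (FP.const' _) (FP.node' (FP.node' cZ cY) FP.leaf')
  have cM : FP zero (fun v => M (node (Pf v) (Lf v)) (Kf v) (Hf v) (Sf v)) :=
    hM1 (FP.node' cP cL) cK cH cS
  have cO : FP zero (fun v => out (len (Kf v)) (snd (M (node (Pf v) (Lf v)) (Kf v) (Hf v) (Sf v)))) := by
    have h1 := FP.comp' FP_out (FP.node' cK (FP.snd' cM))
    simpa only [fst_node, snd_node] using h1
  have cF : FP zero (fun v => cs (fst (M (node (Pf v) (Lf v)) (Kf v) (Hf v) (Sf v))) leaf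
      (snd (out (len (Kf v)) (snd (M (node (Pf v) (Lf v)) (Kf v) (Hf v) (Sf v)))))) :=
    FP.cs' (FP.fst' cM) FP.leaf' (FP.snd' cO)
  refine polyTimeRel_of_FP cF fun x w => ?_
  rw [Qr_iff', cs_ne_leaf]
  obtain ⟨v, hv⟩ : ∃ v, v = node (enc x) (enc w) := ⟨_, rfl⟩
  rw [← hv]
  have eZ : Zf v = enc (zS F.a (un1 x).length) := by
    rw [hZf, hv]
    simp only [fst_node]
    rw [un1T_enc, hz2, len_enc]
  have eY : Yf v = enc (un1 w) := by
    rw [hYf, hv]
    simp only [snd_node]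
    rw [un1T_enc]
  have eP : Pf v = decode (un2 x) := by
    rw [hPf, hv]
    simp only [fst_node]
    rw [un2T_enc, decodeT_enc]
  have eL : len (Lf v) = F.L (un1 x).length := by
    rw [hLf]
    simp only [eZ]
    simp only [mulU_eq, addU_num, len_num, len, len_enc]
    unfold Frm.L nL nA
    ring
  have eH : Hf v = decode (un2 w) := by
    rw [hHf, hv]
    simp only [snd_node]
    rw [un2T_enc, decodeT_enc]
  have eK : len (Kf v) = R.clk (zS F.a (un1 x).length) (un1 w) := by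
    rw [hKf]
    simp only [eZ, eY]
    simp only [mulU_eq, addU_num, len_num, len_enc, hP1]
    rfl
  have eS : Sf v = R.s0 (zS F.a (un1 x).length) (un1 w) := by
    rw [hSf]
    simp only [eZ, eY]
    rfl
  obtain ⟨m1, m2⟩ := hM2 (node (Pf v) (Lf v)) (Kf v) (Hf v) (Sf v)
  have eΩ : (fun h => mor (fst (fst (node (node (Pf v) (Lf v)) h)))
      (len (snd (fst (node (node (Pf v) (Lf v)) h)))) (snd (node (node (Pf v) (Lf v)) h))) =
      mor (decode (un2 x)) (F.L (un1 x).length) := by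
    funext h
    simp only [fst_node, snd_node, eP, eL]
  have eV : (fun h y => kT (node (node (node (Pf v) (Lf v)) h) y) ≠ leaf) =
      hok T (decode (un2 x)) (F.L (un1 x).length) := by
    funext h y
    rw [← eL, ← eP]
    exact propext (hk2 _ _ _ _)
  rw [eΩ, eK, eH, eS] at m1
  rw [eΩ, eV, eK, eH, eS] at m2
  rw [eK, eH, eS, m1, m2]
  rfl

end Pool.Agent.H79.CP
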