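import Pool.Agent.H79.CP.Defs

set_option autoImplicit false

/-!
# Programs for reading wires and for cutting strings

PROOF. `rdT`: iterate `rdstep` on states `node ws (node l acc)`; one step adds at most a constant to
the size (`FP.iterate_add`); the value of a wire is normalised (`cs _ leaf tt`), so the size of the new
entry is at most 3.  Compare `lookT` and `estep` in `Pool.Agent.H18.CB.CorF` (`lookT_enc`; copy the
private lemmas).  `cutT`: `appT_enc`, `tkT_enc`, `num_eq_enc` (private in `CorF`), `ulen_eq`.
-/

namespace Pool.Agent.H79.CP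

open Pool.Agent.H88.RO Pool.Agent.H88.RO.Tr Pool.Agent.H65.TS Pool.Agent.H65.NU Pool.Agent.H69.NL
open Pool.Agent.H18.CB
open Pool.Agent.H93.BB (Orc zero)

variable {O : List Bool → Bool}

private theorem snd_iter_enc (n : ℕ) (l : List Bool) : snd^[n] (enc l) = enc (l.drop n) := by
  induction n generalizing l with
  | zero => simp
  | succ n ih =>
    rw [Function.iterate_succ_apply]
    cases l with
    | nil =>
      have e : snd (enc []) = enc [] := rfl
      rw [e, ih]
      simp
    | cons b l =>
      have e : snd (enc (b :: l)) = enc l := rfl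
      rw [e, ih]
      simp

private theorem num_eq_enc (m : ℕ) : num m = enc (List.replicate m false) := by
  induction m with
  | zero => rfl
  | succ m ih =>
    have e : num (m + 1) = node leaf (num m) := rfl
    rw [e, ih]
    rfl

private theorem fst_enc (l : List Bool) : fst (enc l) = bit (l.headD false) := by
  cases l <;> rfl

private theorem lookT_enc (i : Tr) (l : List Bool) : fst (dropU i (enc l)) = bit (l.getD (len i) false) := by
  rw [dropU, snd_iter_enc, fst_enc]
  congr 1
  rw [List.headD_eq_head?_getD, List.head?_drop, List.getD_eq_getElem?_getD]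

private theorem cs_bit (b : Bool) : cs (bit b) leaf tt = bit b := by
  cases b <;> rfl

private theorem size_csb (p : Tr) : size (cs p leaf tt) ≤ 3 := by
  unfold cs
  split_ifs <;> simp [tt, size]

/-- one step of reading; states are `node ws (node l acc)` -/
def rdstep (s : Tr) : Tr :=
  cs (fst (snd s)) s (node (fst s) (node (snd (fst (snd s)))
    (node (cs (fst (dropU (fst (fst (snd s))) (fst s))) leaf tt) (snd (snd s)))))

/-- read the wires given by the list `l` -/
def rdT (W l : Tr) : Tr := snd (snd (rdstep^[len l] (node (norm W) (node l leaf))))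

private theorem rdstep_iter (W : List Bool) (l : Tr) : ∀ acc : List Bool,
    rdstep^[len l] (node (enc W) (node l (enc acc))) = node (enc W) (node leaf (enc (rdL W l acc))) := by
  induction l with
  | leaf => intro acc; rfl
  | node a l _ ih =>
    intro acc
    rw [len, Function.iterate_succ_apply]
    have e : rdstep (node (enc W) (node (node a l) (enc acc))) =
        node (enc W) (node l (enc (W.getD (len a) false :: acc))) := by
      rw [rdstep, cs_neg _ _ (by simp)]
      simp only [fst_node, snd_node, lookT_enc, cs_bit]
      rfl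
    rw [e, ih]
    rfl

theorem rdT_eq (W l : Tr) : rdT W l = enc (rdL (dec W) l []) := by
  have e : (leaf : Tr) = enc [] := rfl
  rw [rdT, norm_eq]
  conv_lhs => rw [e]
  rw [rdstep_iter, snd_node, snd_node]

private theorem size_rdstep (s : Tr) : size (rdstep s) ≤ size s + 3 := by
  unfold rdstep
  by_cases h : fst (snd s) = leaf
  · rw [cs_pos _ _ h]
    omega
  · rw [cs_neg _ _ h]
    rcases s with _ | ⟨w, _ | ⟨_ | ⟨a, l⟩, acc⟩⟩
    · simp at h
    · simp at h
    · simp at h
    · have h1 := size_csb (fst (dropU a w))
      simp only [fst_node, snd_node, size] at h1 ⊢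
      omega

private theorem FP_rdstep : FP O rdstep := by
  have h1 : FP O (fun s : Tr => fst s) := FP.fst' FP.id'
  have h2 : FP O (fun s : Tr => snd s) := FP.snd' FP.id'
  unfold rdstep
  exact FP.cs' (FP.fst' h2) FP.id' (FP.node' h1 (FP.node' (FP.snd' (FP.fst' h2)) (FP.node'
    (FP.cs' (FP.fst' (FP.dropU' (FP.fst' (FP.fst' h2)) h1)) FP.leaf' (FP.const' _)) (FP.snd' h2))))

theorem FP.rdT' {F G : Tr → Tr} (hF : FP O F) (hG : FP O G) : FP O (fun v => rdT (F v) (G v)) :=
  FP.snd' (FP.snd' (FP.iterate_add FP_rdstep hG (FP.node' (FP.norm' hF) (FP.node' hG FP.leaf')) 3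
    size_rdstep))

/-- the first `len e` bits of `y1000...` -/
def cutT (e y : Tr) : Tr := tkT e (appT (norm y) (node tt (ulen e)))

theorem cutT_eq (e y : Tr) : cutT e y = enc (cut (len e) (dec y)) := by
  have h : node tt (ulen e) = enc (true :: List.replicate (len e) false) := by
    rw [ulen_eq, num_eq_enc]
    rfl
  rw [cutT, norm_eq, h, appT_enc, tkT_enc, cut]

theorem FP.cutT' {F G : Tr → Tr} (hF : FP O F) (hG : FP O G) :
    FP O (fun v => cutT (F v) (G v)) :=
  FP.tkT' hF (FP.appT' (FP.norm' hG) (FP.node' (FP.const' _) (FP.ulen' hF)))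

theorem length_cut (e : ℕ) (y : List Bool) : (cut e y).length = e := by
  rw [cut, List.length_take, List.length_append, List.length_cons, List.length_replicate]
  omega

end Pool.Agent.H79.CP
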