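import Pool.Agent.H79.CP.Fin
import Pool.Agent.H91.EL.Turing

/-!
# A complete total NP search problem gives lower bounds for circuits with gates for TFNP

The computation model, total NP search problems and completeness are defined in
`Pool.Agent.H88.RO.Model` (here always with the trivial oracle `zero`, that is, without oracle),
polynomial time Turing reductions in `Pool.Agent.H65.TS.Base`, the condition on `α` (monotone,
unbounded, computable in polynomial time in unary notation) in `Pool.Agent.H69.NL.Defs`, circuits
with search gates in `Pool.Agent.H79.CP.Defs`, and `E^NP` in `Pool.Agent.H18.CB.ENP`.

A circuit with search gates for a total NP search problem `T'` has NAND gates and gates which get a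
string as an instance of `T'` on their input wires and answer with an arbitrary `T'`-solution.  It
computes a function if its output is correct for all inputs and all choices of the solutions.  For
example it can query all sets in `NP ∩ coNP`, and circuits without search gates are a special case.

Theorem.  Suppose that some total NP search problem is complete under polynomial time Turing
reductions (many-one completeness is a special case).  Let `α` be as above, for example `log n` or
`log log n`.  Then there are a total NP search problem `S`, a set `K` in `E^NP`, a positive
constant `k` and an infinite set `I` such that for all `m` in `I`, with `L = k m + 10`: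
* every solution of the instance `1^(2^m)` of `S` is the truth table of a Boolean function of `L`
  variables, and the restriction of `K` to the strings of length `L` is such a solution;
* for every total NP search problem `T'`, if `m` is large enough, no solution of the instance
  `1^(2^m)` of `S` is computed by a circuit of size at most `2 ^ (L / α(L))` with search gates
  for `T'`.
So if the sets in `E^NP` have such circuits, for one such `α` (for example if `EXP^NP` is contained in
`(NP ∩ coNP)/poly`), then no total NP search problem is complete.

Proof.  Let `T` be any total problem.  The lengths `n = 2 ^ k` name lists of programs `(e, i, j)` (keys),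
every list is named by infinitely many lengths.  Let `z` be a string of length about `k a(n)` which
describes `n`, with `a = log log α(log n)`.  A computation of a universal program which runs program `e`
on `1^n` and a witness of length at most `n ^ a(n)` is described by a tableau, which is an oracle for
strings of length `L = O(|z|)`, and which is correct iff it passes local tests at all
positions (strings of length `O(|z|)`).

* A solution of the instance `(1^n, D)` of `S1`, `D` a circuit with `L` inputs and with search gates
  for `T`, of size at most polynomial in `n`, is a position and a list of histories (correct
  `T`-solutions at the search gates) of `D` for the queries which the local test at this position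
  asks, such that the test fails with the outputs of `D` with these histories.
* A solution of the instance `1^N 0 1^n`, `N = n ^ (2 ^ β)`, of `S0` is a pair `D`, `w` which refutes that
  the programs `j` are a reduction from `S1` to `T` which is correct at the instances `(1^n, D)`.
* Program `e` accepts the witnesses `w` which refute that the programs `i` are a reduction from
  `S0` to `T` which is correct at the instance `1^N 0 1^n`.
* A solution of the instance `1^M`, `M = 2 ^ (|z| + 1)`, of `S` is a table of length `2 ^ L` which is
  either a correct accepting tableau for `z`, or contains a solution of the instance `1^N 0 1^n` of `S0`.

`S` is total: `T` has a solution `w` of the image of `1^N 0 1^n` under `i`; if it does not give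
a solution of `S0`, then `e` accepts it.  Suppose that `S` has a solution which is computed by a
circuit `D` with gates for `T` of size polynomial in `n`, for all large `n`.  Then `S0` is total (for
large `n`): if `1^N 0 1^n` has no solution, then no `D` is refuted, so, as `T` is total, every
instance `(1^n, D)` of `S1` has a solution; if `D` computes the solution of `S`, all its histories
give the right outputs, so this solution is not a correct tableau, so it contains a solution of `S0`, a
contradiction.  Let `T` be complete.  Let `i` be a reduction from `S0` to `T`.  Then, for the `n` which
name `e, i`, program `e` accepts nothing, so there is no correct tableau.  As `T` is total, every `D`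
has histories for all inputs, and the outputs with one selection of histories are not a correct
tableau, so `S1` (restricted to these `n`) is total.  Let `j` be a reduction from `S1` to `T`.  For the
`n` which name `e, i, j` the problem `S0` has no solution: a contradiction.
Finally a search gate for `T'` is replaced by a search gate for `T` and the two programs of a
reduction from `T'` to `T`, and the size `2 ^ (L / α(L))`, to any fixed power, is smaller than `n`.
-/

set_option autoImplicit false

namespace Pool.Agent.H79.CP.Res

open Pool.Agent.H88.RO Pool.Agent.H65.TS Pool.Agent.H69.NL Pool.Agent.H18.CB Pool.Agent.H79.CP
open Pool.Agent.H93.BB (zero)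
open Pool.Agent.H93.BB.Tab (val)

/-- **If there is a complete total NP search problem (under Turing reductions), then some total NP
search problem has only solutions which need circuits of nearly exponential size, even with gates
for total NP search problems, at infinitely many instances `1^(2^m)`; and so does a set in
`E^NP`.** -/
theorem result :
    (Slow zero (fun n => Nat.log 2 n) ∧ Slow zero (fun n => Nat.log 2 (Nat.log 2 n))) ∧
    ∀ α : ℕ → ℕ, Slow zero α → (∃ T : TFNP zero, ∀ S : TFNP zero, TuringReduces S T) →
      ∃ (S : TFNP zero) (K : Set (List Bool)) (k : ℕ) (I : Set ℕ),
        InENP K ∧ 0 < k ∧ I.Infinite ∧
        (∀ m ∈ I, (∀ y : List Bool, S.IsSol (ones (2 ^ m)) y → y.length = 2 ^ (k * m + 10)) ∧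
          ∃ y : List Bool, S.IsSol (ones (2 ^ m)) y ∧
            ∀ x : List Bool, x.length = k * m + 10 → (x ∈ K ↔ y.getD (val x) false = true)) ∧
        ∀ T' : TFNP zero, ∃ B : ℕ, ∀ m ∈ I, B ≤ m → ∀ y : List Bool,
          S.IsSol (ones (2 ^ m)) y → ∀ C : List Gate, SComputes T' C y →
            2 ^ (k * m + 10) < sz C ^ α (k * m + 10) := by
  refine ⟨⟨slow_log, slow_log_log⟩, fun α hα ⟨T, hT⟩ => ?_⟩
  obtain ⟨H, hH⟩ := Pool.Agent.H91.EL.complete_of_turing hT
  obtain ⟨S, k, I, hk, hI, hlen, hS⟩ := hard_solutions' hH hα
  obtain ⟨K, hK, hK'⟩ := exists_InENP S hk
  refine ⟨S, K, k, I, hK, hk, hI, fun m hm => ⟨hlen m hm, ?_⟩, hS⟩
  obtain ⟨y, hy1, hy2⟩ := hK' m (hlen m hm)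
  exact ⟨y, hy1, fun x hx => (hy2 x hx).symm⟩

end Pool.Agent.H79.CP.Res
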